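import Mathlib

/-!
# The matroid of algebraic independence over a field
-/

set_option autoImplicit false

open Set

namespace Pool.Agent.V7H81.LW

variable (F : Type) {Ω : Type} [Field F] [Field Ω] [Algebra F Ω]

/-- the matroid of algebraic independence -/
noncomputable abbrev Mt (Ω : Type) [Field Ω] [Algebra F Ω] : Matroid Ω := AlgebraicIndependent.matroid F Ω

variable {F}


lemma mem_cl_iff {S : Set Ω} {x : Ω} : x ∈ (Mt F Ω).closure S ↔ IsAlgebraic (Algebra.adjoin F S) x := by
  rw [AlgebraicIndependent.matroid_closure_eq]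
  exact Iff.rfl

open scoped IntermediateField.algebraAdjoinAdjoin in
lemma mem_cl_iff' {S : Set Ω} {x : Ω} : x ∈ (Mt F Ω).closure S ↔ IsAlgebraic (IntermediateField.adjoin F S) x := by
  rw [mem_cl_iff]
  exact IsFractionRing.isAlgebraic_iff (Algebra.adjoin F S) (IntermediateField.adjoin F S) Ω

/-- the closure as an intermediate field -/
noncomputable def clF (F : Type) {Ω : Type} [Field F] [Field Ω] [Algebra F Ω] (S : Set Ω) : Subfield Ω where
  carrier := (Mt F Ω).closure S
  mul_mem' := fun ha hb => mem_cl_iff.2 ((mem_cl_iff.1 ha).mul (mem_cl_iff.1 hb))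
  one_mem' := mem_cl_iff.2 isAlgebraic_one
  add_mem' := fun ha hb => mem_cl_iff.2 ((mem_cl_iff.1 ha).add (mem_cl_iff.1 hb))
  zero_mem' := mem_cl_iff.2 isAlgebraic_zero
  neg_mem' := fun ha => mem_cl_iff.2 (mem_cl_iff.1 ha).neg
  inv_mem' := fun _ ha => mem_cl_iff.2 (mem_cl_iff.1 ha).inv

lemma mem_clF {S : Set Ω} {x : Ω} : x ∈ clF F S ↔ IsAlgebraic (IntermediateField.adjoin F S) x := mem_cl_iff'

lemma mem_clF' {S : Set Ω} {x : Ω} : x ∈ clF F S ↔ x ∈ (Mt F Ω).closure S := Iff.rfl

lemma subset_clF (S : Set Ω) : S ⊆ clF F S := Matroid.subset_closure (Mt F Ω) S (subset_univ _)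

lemma clF_mono {S T : Set Ω} (h : S ⊆ T) : clF F S ≤ clF F T := Matroid.closure_subset_closure (Mt F Ω) h

lemma clF_le {S T : Set Ω} (h : S ⊆ clF F T) : clF F S ≤ clF F T :=
  Matroid.closure_subset_closure_of_subset_closure h

/-- an element one of whose nonzero powers is in the closure is in the closure -/
lemma of_pow {S : Set Ω} {x : Ω} {n : ℕ} (hn : n ≠ 0) (h : x ^ n ∈ clF F S) : x ∈ clF F S :=
  mem_cl_iff.2 (IsAlgebraic.of_pow (Nat.pos_of_ne_zero hn) (mem_cl_iff.1 h))

lemma card_le {ι : Type*} [Fintype ι] {x : ι → Ω} (hx : AlgebraicIndependent F x) {T : Set Ω} (h : ∀ i, x i ∈ clF F T) :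
    (Fintype.card ι : ℕ∞) ≤ (Mt F Ω).eRk T := by
  have h1 : (Mt F Ω).Indep (range x) := hx.to_subtype_range
  have h2 : range x ⊆ (Mt F Ω).closure T := by
    rintro _ ⟨i, rfl⟩
    exact h i
  calc (Fintype.card ι : ℕ∞) = (range x).encard := by
        rw [← image_univ, hx.injective.injOn.encard_image, encard_univ, ENat.card_eq_coe_fintype_card]
    _ ≤ (Mt F Ω).eRk ((Mt F Ω).closure T) := h1.encard_le_eRk_of_subset h2
    _ = (Mt F Ω).eRk T := Matroid.eRk_closure_eq (Mt F Ω) T

lemma card_le_card {ι κ : Type*} [Fintype ι] [Fintype κ] {x : ι → Ω} (hx : AlgebraicIndependent F x) {y : κ → Ω}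
    (h : ∀ i, x i ∈ clF F (range y)) : Fintype.card ι ≤ Fintype.card κ := by
  have h1 := card_le hx h
  have h2 : (range y).encard ≤ Fintype.card κ := by
    rw [← image_univ, ← ENat.card_eq_coe_fintype_card, ← encard_univ]
    exact encard_image_le _ _
  exact_mod_cast h1.trans ((Matroid.eRk_le_encard _ _).trans h2)

/-- as many elements spanning independent elements are independent -/
lemma indep_of_span {ι κ : Type*} [Fintype ι] [Fintype κ] {x : ι → Ω} (hx : AlgebraicIndependent F x) {y : κ → Ω}
    (h : ∀ i, x i ∈ clF F (range y)) (hc : Fintype.card κ ≤ Fintype.card ι) : AlgebraicIndependent F y := by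
  have h1 := card_le hx h
  have h2 : (range y).encard ≤ Fintype.card κ := by
    rw [← image_univ, ← ENat.card_eq_coe_fintype_card, ← encard_univ]
    exact encard_image_le _ _
  have h3 : (Fintype.card κ : ℕ∞) ≤ (range y).encard :=
    (by exact_mod_cast hc : (Fintype.card κ : ℕ∞) ≤ Fintype.card ι).trans (h1.trans (Matroid.eRk_le_encard _ _))
  have hfin : (range y).Finite := finite_range y
  have h4 : (Mt F Ω).Indep (range y) := by
    refine ((Mt F Ω).isRkFinite_of_finite hfin).indep_of_encard_le_eRk ?_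
    exact h2.trans ((by exact_mod_cast hc : (Fintype.card κ : ℕ∞) ≤ Fintype.card ι).trans h1)
  have hinj : Function.Injective y := by
    rw [← injOn_univ]
    refine Finite.injOn_of_encard_image_eq finite_univ ?_
    rw [image_univ]
    refine le_antisymm (h2.trans ?_) ?_
    · rw [encard_univ, ENat.card_eq_coe_fintype_card]
    · rw [encard_univ, ENat.card_eq_coe_fintype_card]; exact h3
  exact (algebraicIndependent_subtype_range hinj).1 h4

lemma AI_of_val (K : IntermediateField F Ω) {ι : Type*} (f : ι → K)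
    (h : AlgebraicIndependent F (fun i => (f i : Ω))) : AlgebraicIndependent F f := by
  have h1 : Function.Injective K.val := K.val.injective
  exact (K.val.algebraicIndependent_iff h1).1 h

/-- a lower bound for the transcendence degree of a generated field -/
lemma trdeg_ge {ι : Type*} [Fintype ι] {x : ι → Ω} (hx : AlgebraicIndependent F x) {A : Set Ω} (h : ∀ i, x i ∈ clF F A) :
    (Fintype.card ι : Cardinal) ≤ Algebra.trdeg F (IntermediateField.adjoin F A) := by
  obtain ⟨I, hI⟩ := (Mt F Ω).exists_isBasis A (subset_univ _)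
  have h1 := card_le hx h
  rw [← hI.encard_eq_eRk] at h1
  obtain ⟨t, htI, htc⟩ := exists_subset_encard_eq h1
  have hfin : t.Finite := by
    rw [← encard_lt_top_iff, htc]
    exact ENat.natCast_lt_top _
  have hind : AlgebraicIndependent F (fun i : t => (i : Ω)) := hI.indep.subset htI
  have htA : ∀ i : t, (i : Ω) ∈ IntermediateField.adjoin F A := fun i =>
    IntermediateField.subset_adjoin F A (hI.subset (htI i.2))
  let f : t → IntermediateField.adjoin F A := fun i => ⟨i, htA i⟩
  have hf : AlgebraicIndependent F f :=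
    AI_of_val (IntermediateField.adjoin F A) f hind
  have := hfin.fintype
  have h2 := hf.cardinalMk_le_trdeg
  refine le_trans (le_of_eq ?_) h2
  have h3 : ((Fintype.card ι : ℕ) : ℕ∞) = ((Fintype.card t : ℕ) : ℕ∞) := by
    rw [← htc, ← ENat.card_eq_coe_fintype_card, Set.encard]
  have h4 : Fintype.card ι = Fintype.card t := by exact_mod_cast h3
  rw [Cardinal.mk_fintype, h4]

end Pool.Agent.V7H81.LW
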