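import Pool.Agent.V7H81.LW.Trans
import Pool.Agent.V7H81.LW.Mat
import Pool.Agent.V7H81.ZT.B

/-!
# Incomplete zeta values at algebraic points
-/

set_option autoImplicit false
set_option linter.unusedSectionVars false

open Set

namespace Pool.Agent.V7H81.LW

open Pool.Agent.R352.E (EE zt)
open Pool.Agent.R352.Q (Zk Rk As Ls deriv_As const_As const_pos W)

section general

variable {F Ω : Type} [Field F] [Field Ω] [Algebra F Ω]

lemma mem_clF_empty {x : Ω} : x ∈ clF F (∅ : Set Ω) ↔ IsAlgebraic F x := by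
  rw [mem_clF]
  constructor
  · intro h
    have h1 : Algebra.IsAlgebraic F (IntermediateField.adjoin F (∅ : Set Ω)) := by
      rw [IntermediateField.isAlgebraic_adjoin_iff_isAlgebraic]
      exact fun x hx => absurd hx (notMem_empty x)
    exact h.restrictScalars F
  · intro h
    exact h.tower_top _

lemma algebraMap_mem_clF (a : F) (S : Set Ω) : algebraMap F Ω a ∈ clF F S :=
  clF_mono (empty_subset S) (mem_clF_empty.2 (isAlgebraic_algebraMap a))

end general

open PowerSeries in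
lemma mem_of_Zk' {x : ℝ} (hx' : 0 < x) {F : Subfield ℝ} (he : Real.exp (-x) ∈ F) (h1 : EE 1 x ∈ F) {J : ℕ}
    (hZ : ∀ k, 2 ≤ k → k ≤ J → Zk k x ∈ F) : ∀ l ≤ J, EE l x ∈ F := by
  have ha : 1 - Real.exp (-(x : ℝ)) ∈ F := F.sub_mem F.one_mem he
  have ha0 := (const_pos hx').ne'
  have hneg : ∀ n : ℕ, (-1 : ℝ) ^ n ∈ F := fun n => F.pow_mem (F.neg_mem F.one_mem) n
  have hA0 : coeff 0 (As x) = 1 - Real.exp (-(x : ℝ)) := by rw [coeff_zero_eq_constantCoeff_apply, const_As]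
  have hL : ∀ j, j + 1 ≤ J → coeff j (Ls x) ∈ F := by
    intro j hj
    cases j with
    | zero =>
      have h2 := congrArg (coeff 0) (deriv_As hx')
      have h3 : coeff 0 (As (x : ℝ) * Ls x) = coeff 0 (As (x : ℝ)) * coeff 0 (Ls (x : ℝ)) := by
        simp only [coeff_zero_eq_constantCoeff_apply, map_mul]
      rw [coeff_derivative, h3, hA0, As, coeff_mk] at h2
      have h4 : coeff 0 (Ls (x : ℝ)) = -EE 1 x / (1 - Real.exp (-(x : ℝ))) := by
        rw [eq_div_iff ha0, mul_comm, ← h2]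
        norm_num
      rw [h4]
      exact F.div_mem (F.neg_mem h1) ha
    | succ j =>
      have h2 := hZ (j + 2) (by omega) (by omega)
      rw [Zk] at h2
      have h3 : j + 2 - 1 = j + 1 := by omega
      rw [h3] at h2
      have h4 : coeff (j + 1) (Ls x) = ((-1) ^ (j + 2) * ((1 - Real.exp (-(x : ℝ))) ^ (j + 2) * coeff (j + 1) (Ls x))) /
          ((-1) ^ (j + 2) * (1 - Real.exp (-(x : ℝ))) ^ (j + 2)) := by
        have : ((-1 : ℝ)) ^ (j + 2) ≠ 0 := pow_ne_zero _ (by norm_num)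
        field_simp
      rw [h4]
      exact F.div_mem h2 (F.mul_mem (hneg _) (F.pow_mem ha _))
  have hA : ∀ l ≤ J, coeff l (As x) ∈ F := by
    intro l
    induction l using Nat.strong_induction_on with
    | _ l ih =>
      intro hl
      cases l with
      | zero => rw [hA0]; exact ha
      | succ n =>
        have h2 := congrArg (coeff n) (deriv_As hx')
        rw [coeff_derivative, coeff_mul] at h2
        have h3 : coeff (n + 1) (As x) = (∑ p ∈ Finset.HasAntidiagonal.antidiagonal n, coeff p.1 (As x) *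
            coeff p.2 (Ls x)) / ((n : ℝ) + 1) := by
          rw [eq_div_iff (by positivity), h2]
        rw [h3]
        refine F.div_mem (F.sum_mem fun p hp => ?_) ?_
        · have hp' := Finset.HasAntidiagonal.mem_antidiagonal.1 hp
          exact F.mul_mem (ih p.1 (by omega) (by omega)) (hL p.2 (by omega))
        · exact_mod_cast natCast_mem F (n + 1)
  intro l hl
  have h2 := hA l hl
  rw [As, coeff_mk] at h2
  have h3 : EE l x = (-1) ^ l * ((-1) ^ l * EE l x) := by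
    rw [← mul_assoc, ← mul_pow]; norm_num
  rw [h3]
  exact F.mul_mem (hneg l) h2

/-- the positive real algebraic numbers -/
abbrev PA : Type := {x : ℝ // 0 < x ∧ IsAlgebraic ℚ x}

lemma alg_coe {x : ℝ} (h : IsAlgebraic ℚ x) : IsAlgebraic ℚ (x : ℂ) := h.algebraMap

/-- a positive real algebraic number as a unit of the field of algebraic numbers -/
noncomputable def un (x : PA) : QAˣ :=
  Units.mk0 (⟨(x : ℝ), mem_algebraicClosure_iff.2 (alg_coe x.2.2)⟩ : QA) (by
    intro h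
    have h1 : (((x : ℝ)) : ℂ) = 0 := congrArg Subtype.val h
    have h2 := x.2.1
    rw [Complex.ofReal_eq_zero] at h1
    exact h2.ne' h1)

lemma coe_un (x : PA) : (((un x : QAˣ) : QA) : ℂ) = ((x : ℝ) : ℂ) := rfl

lemma un_inj : Function.Injective un := by
  intro x y h
  have h1 : (((un x : QAˣ) : QA) : ℂ) = ((un y : QAˣ) : QA) := by rw [h]
  rw [coe_un, coe_un] at h1
  exact Subtype.ext (Complex.ofReal_injective h1)

lemma cv_un (l : ℕ) (x : PA) : cv (l, un x) = ((EE (l + 1) x : ℝ) : ℂ) := by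
  rw [cv, coe_un, EE, Complex.ofReal_tsum, Ec]
  have h1 := Nat.succ_injective.tsum_eq (f := fun n : ℕ => if n = 0 then (0 : ℂ) else
    -(-((x : ℝ) : ℂ)) ^ n / (n.factorial * (n : ℂ) ^ (l + 1))) (by
      intro n hn
      cases n with
      | zero => exact absurd rfl hn
      | succ n => exact ⟨n, rfl⟩)
  rw [← h1]
  refine tsum_congr fun m => ?_
  rw [if_neg (Nat.succ_ne_zero m), Nat.succ_eq_add_one]
  push_cast
  rfl

/-- the values `E_(l+1)(x)` at positive real algebraic points -/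
theorem AI_EE : AlgebraicIndependent EX (fun p : ℕ × PA => ((EE (p.1 + 1) p.2 : ℝ) : ℂ)) := by
  have h1 := AI_EX.comp (fun p : ℕ × PA => (p.1, un p.2)) (by
    intro p q h
    exact Prod.ext (Prod.mk.inj h).1 (un_inj (Prod.mk.inj h).2))
  convert h1 using 1
  ext p
  exact (cv_un p.1 p.2).symm

lemma exp_mem {x : ℝ} (hx : IsAlgebraic ℚ x) (T : Set ℂ) : ((Real.exp x : ℝ) : ℂ) ∈ clF EX T := by
  have h1 : Complex.exp (x : ℂ) ∈ EX := IntermediateField.subset_adjoin _ _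
    ⟨⟨(x : ℂ), mem_algebraicClosure_iff.2 (alg_coe hx)⟩, rfl⟩
  rw [Complex.ofReal_exp]
  exact algebraMap_mem_clF (⟨_, h1⟩ : EX) T

/-- the real numbers in a closure -/
noncomputable def rc (T : Set ℂ) : Subfield ℝ := (clF EX T).comap Complex.ofRealHom

lemma mem_rc {T : Set ℂ} {x : ℝ} : x ∈ rc T ↔ (x : ℂ) ∈ clF EX T := Iff.rfl

lemma AI_finW (J : ℕ) {ι : Type} [Fintype ι] (x : ι → PA) (hinj : Function.Injective x) :
    AlgebraicIndependent EX (fun p : Fin J × ι => ((W p.1 (x p.2) : ℝ) : ℂ)) := by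
  have h0 := AI_EE.comp (fun p : Fin J × ι => ((p.1 : ℕ), x p.2)) (by
    intro p q h
    exact Prod.ext (Fin.ext (Prod.mk.inj h).1) (hinj (Prod.mk.inj h).2))
  refine indep_of_span h0 (fun p => ?_) le_rfl
  have hJ := p.1.2
  have key := mem_of_Zk' (x p.2).2.1 (F := rc (range fun p : Fin J × ι => ((W p.1 (x p.2) : ℝ) : ℂ)))
    (mem_rc.2 (exp_mem (x p.2).2.2.neg _)) ?_ (J := J) (fun k hk hk' => ?_) (p.1 + 1) (by omega)
  · exact key
  · refine mem_rc.2 (subset_clF _ ⟨(⟨0, by omega⟩, p.2), ?_⟩)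
    simp [W]
  · refine mem_rc.2 (subset_clF _ ⟨(⟨k - 1, by omega⟩, p.2), ?_⟩)
    simp only [W]
    rw [if_neg (by omega), Nat.sub_add_cancel (by omega)]

/-- pairs of an integer `k ≥ 2` and a positive real algebraic number -/
abbrev IX : Type := {p : ℕ × ℝ // 2 ≤ p.1 ∧ 0 < p.2 ∧ IsAlgebraic ℚ p.2}

/-- **Algebraic independence** of the incomplete zeta values at algebraic points -/
theorem AI_Zc : AlgebraicIndependent EX (fun p : IX => ((Zk p.1.1 p.1.2 : ℝ) : ℂ)) := by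
  classical
  refine algebraicIndependent_of_finite_type fun t ht => ?_
  let J : ℕ := ht.toFinset.sup fun p => p.1.1
  let Y : Finset PA := ht.toFinset.image fun p => ⟨p.1.2, p.2.2⟩
  have hJ : ∀ p ∈ t, p.1.1 ≤ J := fun p hp => Finset.le_sup (f := fun p : IX => p.1.1) (ht.mem_toFinset.2 hp)
  have hY : ∀ p ∈ t, (⟨p.1.2, p.2.2⟩ : PA) ∈ Y := fun p hp => Finset.mem_image_of_mem (fun p : IX => (⟨p.1.2, p.2.2⟩ : PA))
    (ht.mem_toFinset.2 hp)
  have h := AI_finW J (ι := Y) (fun x => (x : PA)) Subtype.val_injective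
  let f : t → Fin J × Y := fun p => (⟨p.1.1.1 - 1, by have := hJ p p.2; have := p.1.2.1; omega⟩, ⟨_, hY p p.2⟩)
  have hf : Function.Injective f := by
    intro p q hpq
    simp only [f, Prod.mk.injEq, Fin.mk.injEq, Subtype.mk.injEq] at hpq
    have h1 := p.1.2.1
    have h2 := q.1.2.1
    exact Subtype.ext (Subtype.ext (Prod.ext (by omega) hpq.2))
  have h2 := h.comp f hf
  convert h2 using 1
  ext p
  have h1 := p.1.2.1
  simp only [Function.comp_apply, f, W]
  rw [if_neg (by omega), Nat.sub_add_cancel (by omega)]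

lemma Zk_mem' {k : ℕ} {x : ℝ} {T : Set ℂ} (h1 : ((zt k : ℝ) : ℂ) ∈ clF EX T) (h2 : ((Rk k x : ℝ) : ℂ) ∈ clF EX T) :
    ((Zk k x : ℝ) : ℂ) ∈ clF EX T := by
  have : ((Zk k x : ℝ) : ℂ) = ((zt k : ℝ) : ℂ) - ((Rk k x : ℝ) : ℂ) := by rw [Rk]; push_cast; ring
  rw [this]
  exact (clF EX T).sub_mem h1 h2

lemma AI_subc (S : Finset (ℕ × ℝ)) (hS : ∀ p ∈ S, 2 ≤ p.1 ∧ 0 < p.2 ∧ IsAlgebraic ℚ p.2) :
    AlgebraicIndependent EX (fun p : S => ((Zk p.1.1 p.1.2 : ℝ) : ℂ)) :=
  AI_Zc.comp (fun p : S => (⟨p.1, hS p.1 p.2⟩ : IX)) (by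
    intro p q h
    have h1 := congrArg (fun z : IX => z.1) h
    exact Subtype.ext h1)

/-- a lower bound for the transcendence degree -/
theorem trdegRc {r : ℕ} (y : Fin r → ℂ) (S : Finset (ℕ × ℝ))
    (hS : ∀ p ∈ S, 2 ≤ p.1 ∧ 0 < p.2 ∧ IsAlgebraic ℚ p.2 ∧ ((zt p.1 : ℝ) : ℂ) ∈ clF EX (range y)) :
    (S.card : Cardinal) ≤ Algebra.trdeg EX (IntermediateField.adjoin EX
      (range y ∪ (fun p : ℕ × ℝ => ((Rk p.1 p.2 : ℝ) : ℂ)) '' (S : Set (ℕ × ℝ)))) := by
  have h := AI_subc S (fun p hp => ⟨(hS p hp).1, (hS p hp).2.1, (hS p hp).2.2.1⟩)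
  have h2 := trdeg_ge h (A := range y ∪ (fun p : ℕ × ℝ => ((Rk p.1 p.2 : ℝ) : ℂ)) '' (S : Set (ℕ × ℝ))) ?_
  · refine le_trans (le_of_eq ?_) h2
    simp
  · intro p
    exact Zk_mem' (clF_mono subset_union_left (hS p.1 p.2).2.2.2) (subset_clF _ (Or.inr ⟨p.1, p.2, rfl⟩))

/-- counting -/
theorem countRc {r : ℕ} (y : Fin r → ℂ) (t : Finset (Fin r ⊕ (ℕ × ℝ)))
    (ht : ∀ i ∈ t, Sum.elim y (fun p => ((Rk p.1 p.2 : ℝ) : ℂ)) i ∈ clF EX (∅ : Set ℂ))
    (ht' : ∀ p : ℕ × ℝ, Sum.inr p ∈ t → 2 ≤ p.1 ∧ 0 < p.2 ∧ IsAlgebraic ℚ p.2 ∧ ((zt p.1 : ℝ) : ℂ) ∈ clF EX (range y)) :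
    t.card ≤ r := by
  classical
  have hcard : t.card = t.toLeft.card + t.toRight.card := (Finset.card_toLeft_add_card_toRight).symm
  have hAI := AI_subc t.toRight (fun p hp => by
    have := ht' p (Finset.mem_toRight.1 hp)
    exact ⟨this.1, this.2.1, this.2.2.1⟩)
  have key := card_le_card hAI (y := fun j : {j : Fin r // j ∉ t.toLeft} => y j) (fun p => by
    have hp := Finset.mem_toRight.1 p.2
    have h1 : clF EX (range y) ≤ clF EX (range fun j : {j : Fin r // j ∉ t.toLeft} => y j) := by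
      refine clF_le ?_
      rintro _ ⟨j, rfl⟩
      by_cases hj : j ∈ t.toLeft
      · exact clF_mono (empty_subset _) (ht _ (Finset.mem_toLeft.1 hj))
      · exact subset_clF _ ⟨⟨j, hj⟩, rfl⟩
    exact Zk_mem' (h1 (ht' p.1 hp).2.2.2) (clF_mono (empty_subset _) (ht _ hp)))
  rw [Fintype.card_coe, Fintype.card_subtype_compl, Fintype.card_fin, Fintype.card_coe] at key
  have h2 : t.toLeft.card ≤ r := by
    have := Finset.card_le_univ t.toLeft
    rwa [Fintype.card_fin] at this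
  omega

/-- if the zeta values are algebraic over the field, the tails are algebraically independent -/
theorem AI_Rc (K : Set ℕ) (hK : ∀ k ∈ K, 2 ≤ k ∧ ((zt k : ℝ) : ℂ) ∈ clF EX (∅ : Set ℂ)) :
    AlgebraicIndependent EX (fun p : {p : ℕ × ℝ // p.1 ∈ K ∧ 0 < p.2 ∧ IsAlgebraic ℚ p.2} =>
      ((Rk p.1.1 p.1.2 : ℝ) : ℂ)) := by
  classical
  refine algebraicIndependent_of_finite_type fun t ht => ?_
  have := ht.fintype
  have h0 := AI_Zc.comp (fun p : t => (⟨p.1.1, (hK _ p.1.2.1).1, p.1.2.2⟩ : IX)) (by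
    intro p q h
    have h1 := congrArg (fun z : IX => z.1) h
    exact Subtype.ext (Subtype.ext h1))
  refine indep_of_span h0 (fun p => ?_) le_rfl
  exact Zk_mem' (clF_mono (empty_subset _) (hK _ p.1.2.1).2) (subset_clF _ ⟨p, rfl⟩)

end Pool.Agent.V7H81.LW
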