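import Pool.Agent.V7H81.LW.Base

/-!
# Algebraic independence of the functions `u_l(a z)` over the exponential polynomials
-/

set_option autoImplicit false
set_option linter.unusedSectionVars false

open PowerSeries

namespace Pool.Agent.V7H81.LW

variable {K : Type} [Field K] [CharZero K]

/-- the state of the induction -/
def St (s : Set (ℕ × Kˣ)) : Prop :=
  Nice (Algebra.adjoin (R0 K) (vf '' s)).toSubring (Submodule.span K (vf '' s)) ∧ AlgebraicIndepOn (R0 K) (vf (K := K)) s

lemma Ext_eq (s : Set (ℕ × Kˣ)) (i : ℕ × Kˣ) : Ext (Algebra.adjoin (R0 K) (vf '' s)).toSubring (vf i) =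
    (Algebra.adjoin (R0 K) (vf '' (insert i s))).toSubring := by
  apply le_antisymm
  · rintro _ ⟨p, hp, rfl⟩
    rw [Polynomial.eval_eq_sum_range]
    refine Subring.sum_mem _ fun k _ => Subring.mul_mem _ ?_ (Subring.pow_mem _ ?_ _)
    · have h1 := hp k
      have h2 : Algebra.adjoin (R0 K) (vf '' s) ≤ Algebra.adjoin (R0 K) (vf '' (insert i s)) :=
        Algebra.adjoin_mono (Set.image_mono (Set.subset_insert i s))
      exact h2 h1
    · exact Algebra.subset_adjoin ⟨i, Set.mem_insert i s, rfl⟩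
  · intro f hf
    have hf' : f ∈ Algebra.adjoin (R0 K) (vf '' (insert i s)) := hf
    induction hf' using Algebra.adjoin_induction with
    | mem x hx =>
      obtain ⟨j, hj, rfl⟩ := hx
      rcases hj with rfl | hj
      · exact mem_Ext _
      · exact le_Ext _ (Algebra.subset_adjoin ⟨j, hj, rfl⟩)
    | algebraMap r =>
      exact le_Ext _ (Subalgebra.algebraMap_mem (Algebra.adjoin (R0 K) (vf '' s)) r)
    | add x y hx hy ihx ihy => exact Subring.add_mem _ (ihx hx) (ihy hy)
    | mul x y hx hy ihx ihy => exact Subring.mul_mem _ (ihx hx) (ihy hy)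

lemma th_vf_zero (a : Kˣ) : th (vf ((0, a) : ℕ × Kˣ)) ∈ Ex K := by
  have h1 : th (vf ((0, a) : ℕ × Kˣ)) = ex 0 - ex (-(a : K)) := by
    rw [vf, th_uf, uf_zero, ex_zero]
  rw [h1]
  exact Submodule.sub_mem _ (Submodule.subset_span ⟨0, rfl⟩) (Submodule.subset_span ⟨_, rfl⟩)

lemma th_vf_succ (l : ℕ) (a : Kˣ) : th (vf ((l + 1, a) : ℕ × Kˣ)) = vf (l, a) := by
  rw [vf, th_uf]; rfl

theorem St_step {s : Set (ℕ × Kˣ)} (h : St s) (i : ℕ × Kˣ) (hi : i ∉ s)
    (hprev : i.1 = 0 ∨ (i.1 - 1, i.2) ∈ s) : St (insert i s) := by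
  obtain ⟨hN, hA⟩ := h
  have hu : th (vf i) ∈ Ex K ⊔ Submodule.span K (vf '' s) := by
    obtain ⟨l, a⟩ := i
    rcases hprev with h0 | h0
    · simp only at h0
      subst h0
      exact Submodule.mem_sup_left (th_vf_zero a)
    · cases l with
      | zero => exact Submodule.mem_sup_left (th_vf_zero a)
      | succ l =>
        rw [th_vf_succ]
        exact Submodule.mem_sup_right (Submodule.subset_span ⟨_, h0, rfl⟩)
  have huS : vf i ∉ (Algebra.adjoin (R0 K) (vf '' s)).toSubring := by
    intro hmem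
    obtain ⟨k, g, hg, hgi⟩ := hN.prim 0 (vf i) hmem ⟨th (vf i), hu, by simp⟩
    rw [pow_zero, one_mul] at hgi
    rw [Finsupp.mem_span_image_iff_linearCombination] at hg
    obtain ⟨b, hb, hbg⟩ := hg
    have h1 : re (Finsupp.single 0 (Polynomial.C k)) + lc (b - Finsupp.single i 1) = 0 := by
      have h2 : lc (b - Finsupp.single i 1) = g - vf i := by
        rw [lc, map_sub, hbg, Finsupp.linearCombination_single, one_smul]
      rw [h2, re_single, ex_zero, mul_one, Polynomial.coe_C, hgi]
      ring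
    obtain ⟨-, h2⟩ := re_lc' h1
    have h3 := DFunLike.congr_fun h2 i
    have h4 : b i = 0 := by
      by_contra hbi
      exact hi ((Finsupp.mem_supported K b).1 hb (Finsupp.mem_support_iff.2 hbi))
    rw [Finsupp.sub_apply, h4, Finsupp.single_eq_same, Finsupp.zero_apply] at h3
    norm_num at h3
  refine ⟨?_, ?_⟩
  · have h1 := nice_step hN hu huS
    rw [Ext_eq] at h1
    have h2 : Submodule.span K (vf '' s) ⊔ Submodule.span K {vf i} = Submodule.span K (vf '' (insert i s)) := by
      rw [Set.image_insert_eq, ← Submodule.span_union, Set.union_singleton]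
    rwa [h2] at h1
  · refine hA.insert ?_
    rw [transcendental_iff]
    intro p hp
    have h1 := trans_step hN hu huS (p.map (algebraMap _ K⟦X⟧)) (fun k => by
      rw [Polynomial.coeff_map]
      exact (p.coeff k).2) (by
      rw [Polynomial.eval_map_algebraMap]
      exact hp)
    exact (Polynomial.map_eq_zero_iff (FaithfulSMul.algebraMap_injective _ _)).1 h1

lemma St_empty : St (∅ : Set (ℕ × Kˣ)) := by
  refine ⟨?_, ?_⟩
  · rw [Set.image_empty, Submodule.span_empty, Algebra.adjoin_empty]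
    have h1 : (⊥ : Subalgebra (R0 K) K⟦X⟧).toSubring = R0 K := by
      ext f
      constructor
      · intro hf
        have hf' : f ∈ (⊥ : Subalgebra (R0 K) K⟦X⟧) := hf
        rw [Algebra.mem_bot] at hf'
        obtain ⟨r, rfl⟩ := hf'
        exact r.2
      · intro hf
        show f ∈ (⊥ : Subalgebra (R0 K) K⟦X⟧)
        rw [Algebra.mem_bot]
        exact ⟨⟨f, hf⟩, rfl⟩
    rw [h1]
    exact nice_R0
  · exact algebraicIndependent_empty_type_iff.2 (FaithfulSMul.algebraMap_injective _ _)

theorem St_rect (N : ℕ) (S : Finset Kˣ) : St {i : ℕ × Kˣ | i.1 < N ∧ i.2 ∈ S} := by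
  classical
  induction N with
  | zero =>
    have : {i : ℕ × Kˣ | i.1 < 0 ∧ i.2 ∈ S} = ∅ := by ext i; simp
    rw [this]
    exact St_empty
  | succ N ih =>
    have key : ∀ S' : Finset Kˣ, S' ⊆ S → St ({i : ℕ × Kˣ | i.1 < N ∧ i.2 ∈ S} ∪ {i : ℕ × Kˣ | i.1 = N ∧ i.2 ∈ S'}) := by
      intro S'
      induction S' using Finset.induction_on with
      | empty =>
        intro _
        have : {i : ℕ × Kˣ | i.1 = N ∧ i.2 ∈ (∅ : Finset Kˣ)} = ∅ := by ext i; simp
        rw [this, Set.union_empty]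
        exact ih
      | insert a S' ha ih' =>
        intro hS
        have h1 := St_step (ih' fun b hb => hS (Finset.mem_insert_of_mem hb)) (N, a) (by
          rintro (h | h)
          · exact absurd h.1 (lt_irrefl _)
          · exact ha h.2) (by
          rcases Nat.eq_zero_or_pos N with h | h
          · exact Or.inl h
          · refine Or.inr (Or.inl ⟨?_, hS (Finset.mem_insert_self a S')⟩)
            show N - 1 < N
            omega)
        have h2 : insert (N, a) ({i : ℕ × Kˣ | i.1 < N ∧ i.2 ∈ S} ∪ {i : ℕ × Kˣ | i.1 = N ∧ i.2 ∈ S'}) =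
            {i : ℕ × Kˣ | i.1 < N ∧ i.2 ∈ S} ∪ {i : ℕ × Kˣ | i.1 = N ∧ i.2 ∈ insert a S'} := by
          ext ⟨l, b⟩
          simp only [Set.mem_insert_iff, Set.mem_union, Set.mem_ofPred_eq, Prod.mk.injEq, Finset.mem_insert]
          tauto
        rwa [h2] at h1
    have h3 := key S (Finset.Subset.refl S)
    have h4 : {i : ℕ × Kˣ | i.1 < N ∧ i.2 ∈ S} ∪ {i : ℕ × Kˣ | i.1 = N ∧ i.2 ∈ S} = {i : ℕ × Kˣ | i.1 < N + 1 ∧ i.2 ∈ S} := by
      ext ⟨l, b⟩
      simp only [Set.mem_union, Set.mem_ofPred_eq]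
      constructor
      · rintro (h | h)
        · exact ⟨by omega, h.2⟩
        · exact ⟨by omega, h.2⟩
      · rintro ⟨h1, h2⟩
        rcases Nat.lt_succ_iff_lt_or_eq.1 h1 with h | h
        · exact Or.inl ⟨h, h2⟩
        · exact Or.inr ⟨h, h2⟩
    rwa [h4] at h3

/-- **Algebraic independence** of the generators over the exponential polynomials -/
theorem AI_vf : AlgebraicIndependent (R0 K) (vf (K := K)) := by
  classical
  refine algebraicIndependent_of_finite_type fun t ht => ?_
  obtain ⟨N, hN⟩ : ∃ N, ∀ i ∈ t, i.1 < N := by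
    refine ⟨ht.toFinset.sup Prod.fst + 1, fun i hi => ?_⟩
    have := Finset.le_sup (f := Prod.fst) (ht.mem_toFinset.2 hi)
    omega
  have h1 := (St_rect N (ht.toFinset.image Prod.snd)).2
  exact h1.mono fun i hi => ⟨hN i hi, Finset.mem_image_of_mem _ (ht.mem_toFinset.2 hi)⟩

/-- the monomials in the generators -/
noncomputable def mo (a : (ℕ × Kˣ) →₀ ℕ) : K⟦X⟧ := a.prod fun i n => vf i ^ n

/-- the monomials in the generators and the exponentials -/
noncomputable def mm (p : K × ((ℕ × Kˣ) →₀ ℕ)) : K⟦X⟧ := ex p.1 * mo p.2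

/-- the coefficients of a monomial in the generators -/
noncomputable def ca (c : (K × ((ℕ × Kˣ) →₀ ℕ)) →₀ Polynomial K) (a : (ℕ × Kˣ) →₀ ℕ) : K →₀ Polynomial K :=
  c.comapDomain (fun l => (l, a)) (fun _ _ _ _ h => congrArg Prod.fst h)

lemma ca_apply (c : (K × ((ℕ × Kˣ) →₀ ℕ)) →₀ Polynomial K) (a : (ℕ × Kˣ) →₀ ℕ) (l : K) : ca c a l = c (l, a) := rfl

lemma ca_sum (c : (K × ((ℕ × Kˣ) →₀ ℕ)) →₀ Polynomial K) (a : (ℕ × Kˣ) →₀ ℕ) [DecidableEq ((ℕ × Kˣ) →₀ ℕ)] :
    (c.sum fun p q => if p.2 = a then (q : K⟦X⟧) * ex p.1 else 0) = re (ca c a) := by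
  classical
  induction c using Finsupp.induction_linear with
  | zero =>
    have : ca (0 : (K × ((ℕ × Kˣ) →₀ ℕ)) →₀ Polynomial K) a = 0 := by ext1 l; rfl
    rw [this, re_zero, Finsupp.sum_zero_index]
  | add b c hb hc =>
    have : ca (b + c) a = ca b a + ca c a := by ext1 l; rfl
    rw [this, re_add, ← hb, ← hc, Finsupp.sum_add_index']
    · intro p; simp
    · intro p q q'
      split_ifs
      · rw [Polynomial.coe_add, add_mul]
      · rw [add_zero]
  | single p q =>
    rw [Finsupp.sum_single_index (by simp)]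
    split_ifs with h
    · have : ca (Finsupp.single p q) a = Finsupp.single p.1 q := by
        ext1 l
        rw [ca_apply, Finsupp.single_apply, Finsupp.single_apply]
        have : (p = (l, a)) ↔ (p.1 = l) := by
          rw [Prod.ext_iff]
          simp [h]
        split_ifs with h1 h2 h2
        · rfl
        · exact absurd (this.1 h1) h2
        · exact absurd (this.2 h2) h1
        · rfl
      rw [this, re_single]
    · have : ca (Finsupp.single p q) a = 0 := by
        ext1 l
        rw [ca_apply, Finsupp.single_apply, if_neg]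
        · rfl
        · rintro rfl
          exact h rfl
      rw [this, re_zero]

/-- the monomials are linearly independent over the polynomials -/
theorem mm_LI (c : (K × ((ℕ × Kˣ) →₀ ℕ)) →₀ Polynomial K) (h : (c.sum fun p q => (q : K⟦X⟧) * mm p) = 0) : c = 0 := by
  classical
  have hmem : ∀ (l : K) (q : Polynomial K), (q : K⟦X⟧) * ex l ∈ R0 K := fun l q => ⟨Finsupp.single l q, re_single l q⟩
  obtain ⟨P, hP⟩ : ∃ P : MvPolynomial (ℕ × Kˣ) (R0 K), P = c.sum fun p q =>
      MvPolynomial.monomial p.2 (⟨(q : K⟦X⟧) * ex p.1, hmem p.1 q⟩ : R0 K) := ⟨_, rfl⟩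
  have h1 : MvPolynomial.aeval (vf (K := K)) P = 0 := by
    rw [hP, ← h, Finsupp.sum, map_sum]
    refine Finset.sum_congr rfl fun p _ => ?_
    have e : mm p = ex p.1 * p.2.prod fun i n => vf i ^ n := rfl
    rw [MvPolynomial.aeval_monomial]
    beta_reduce
    rw [e, ← mul_assoc]
    rfl
  have h2 : P = 0 := by
    have := AI_vf (K := K)
    rw [algebraicIndependent_iff] at this
    exact this P h1
  ext1 ⟨l, a⟩
  have h3 := congrArg (MvPolynomial.coeff a) h2
  rw [hP, Finsupp.sum, MvPolynomial.coeff_sum, MvPolynomial.coeff_zero] at h3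
  simp only [MvPolynomial.coeff_monomial] at h3
  have h4 := congrArg (fun r : R0 K => (r : K⟦X⟧)) h3
  simp only [ZeroMemClass.coe_zero, AddSubmonoidClass.coe_finsetSum] at h4
  have h5 : re (ca c a) = 0 := by
    rw [← ca_sum, Finsupp.sum]
    refine (Finset.sum_congr rfl fun p _ => ?_).trans h4
    split_ifs <;> rfl
  have h6 := DFunLike.congr_fun (re_inj h5) l
  rw [ca_apply] at h6
  exact h6

end Pool.Agent.V7H81.LW
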