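import Pool.Agent.V7H81.LW.Nice

/-!
# The ring of exponential polynomials and the functions `u_l`
-/

set_option autoImplicit false
set_option linter.unusedSectionVars false

open PowerSeries

namespace Pool.Agent.V7H81.LW

variable {K : Type} [Field K] [CharZero K]

lemma re_mul_mem (P Q : K →₀ Polynomial K) : ∃ R, re R = re P * re Q := by
  induction P using Finsupp.induction_linear with
  | zero => exact ⟨0, by rw [re_zero, zero_mul]⟩
  | add P P' hP hP' =>
    obtain ⟨R, hR⟩ := hP
    obtain ⟨R', hR'⟩ := hP'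
    exact ⟨R + R', by rw [re_add, re_add, hR, hR', add_mul]⟩
  | single a p =>
    induction Q using Finsupp.induction_linear with
    | zero => exact ⟨0, by rw [re_zero, mul_zero]⟩
    | add Q Q' hQ hQ' =>
      obtain ⟨R, hR⟩ := hQ
      obtain ⟨R', hR'⟩ := hQ'
      exact ⟨R + R', by rw [re_add, re_add, hR, hR', mul_add]⟩
    | single b q =>
      refine ⟨Finsupp.single (a + b) (p * q), ?_⟩
      rw [re_single, re_single, re_single, ex_add, Polynomial.coe_mul]
      ring

/-- the ring of exponential polynomials -/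
noncomputable def R0 (K : Type) [Field K] [CharZero K] : Subring K⟦X⟧ where
  carrier := {f | ∃ P, re P = f}
  mul_mem' := by
    rintro _ _ ⟨P, rfl⟩ ⟨Q, rfl⟩
    exact re_mul_mem P Q
  one_mem' := ⟨Finsupp.single 0 1, by rw [re_single, ex_zero]; simp⟩
  add_mem' := by
    rintro _ _ ⟨P, rfl⟩ ⟨Q, rfl⟩
    exact ⟨P + Q, re_add P Q⟩
  zero_mem' := ⟨0, re_zero⟩
  neg_mem' := by
    rintro _ ⟨P, rfl⟩
    exact ⟨-P, re_neg P⟩

lemma mem_R0 {f : K⟦X⟧} : f ∈ R0 K ↔ ∃ P, re P = f := Iff.rfl

lemma Ex_eq {τ : K⟦X⟧} (hτ : τ ∈ Ex K) : ∃ c : K →₀ K, τ = re (c.mapRange Polynomial.C Polynomial.C_0) := by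
  rw [Ex, Finsupp.mem_span_range_iff_exists_finsupp] at hτ
  obtain ⟨c, rfl⟩ := hτ
  refine ⟨c, ?_⟩
  rw [re, Finsupp.sum_mapRange_index (by intro a; simp)]
  refine Finsupp.sum_congr fun a _ => ?_
  rw [smul_eq, Polynomial.coe_C]

theorem nice_R0 : Nice (R0 K) (⊥ : Submodule K K⟦X⟧) where
  coe_mem := fun p => ⟨Finsupp.single 0 p, by rw [re_single, ex_zero, mul_one]⟩
  ex_mem := fun a => ⟨Finsupp.single a 1, by rw [re_single]; simp⟩
  U_le := by
    intro f hf
    rw [Submodule.mem_bot] at hf
    rw [hf]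
    exact Subring.zero_mem _
  th_mem := by
    rintro _ ⟨P, rfl⟩
    exact ⟨D0 P, (th_re P).symm⟩
  simple := by
    intro J hJ hsub hmul hth hne
    obtain ⟨f, hf, hf0⟩ := hne
    obtain ⟨P, rfl⟩ := hJ f hf
    have hmul' : ∀ (p : Polynomial K), ∀ f ∈ J, (p : K⟦X⟧) * f ∈ J := fun p f hf =>
      hmul _ ⟨Finsupp.single 0 p, by rw [re_single, ex_zero, mul_one]⟩ f hf
    obtain ⟨a, q, hq, hqa⟩ := red J hsub hmul' hth P (by rintro rfl; exact hf0 re_zero) hf
    refine red2 J hsub hmul' hth q hq ?_
    have h1 := hmul (ex (-a)) ⟨Finsupp.single (-a) 1, by rw [re_single]; simp⟩ _ hqa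
    have h2 : ex (-a) * ((q : K⟦X⟧) * ex a) = q := by
      have := ex_neg a
      linear_combination (q : K⟦X⟧) * this
    rwa [h2] at h1
  prim := by
    rintro d _ ⟨P, rfl⟩ ⟨τ, hτ, hPτ⟩
    rw [sup_bot_eq] at hτ
    obtain ⟨c, rfl⟩ := Ex_eq hτ
    have h1 : re (D0 P - (d : Polynomial K) • P - (Polynomial.X ^ d : Polynomial K) •
        c.mapRange Polynomial.C Polynomial.C_0) = 0 := by
      rw [re_sub, re_sub, re_smul, re_smul, ← th_re]
      have e1 : ((d : Polynomial K) : K⟦X⟧) = (d : K⟦X⟧) := by
        rw [show ((d : Polynomial K)) = Polynomial.C (d : K) by simp, Polynomial.coe_C]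
        simp
      rw [e1, hPτ, Polynomial.coe_pow, Polynomial.coe_X]
      ring
    have h2 := re_inj h1
    have h3 : ∀ a, dl a (P a) = (d : Polynomial K) * P a + Polynomial.C (c a) * Polynomial.X ^ d := by
      intro a
      have h4 := DFunLike.congr_fun h2 a
      rw [Finsupp.sub_apply, Finsupp.sub_apply, Finsupp.smul_apply, Finsupp.smul_apply, D0_apply, Finsupp.mapRange_apply,
        smul_eq_mul, smul_eq_mul, Finsupp.zero_apply] at h4
      linear_combination h4
    obtain ⟨k, hk⟩ := (eq_coeff (h3 0)).2 rfl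
    refine ⟨k, 0, Submodule.zero_mem _, ?_⟩
    have h5 : P = Finsupp.single 0 (Polynomial.C k * Polynomial.X ^ d) := by
      classical
      ext1 a
      rw [Finsupp.single_apply]
      split_ifs with h
      · rw [← h, hk]
      · exact (eq_coeff (h3 a)).1 (Ne.symm h)
    rw [h5, re_single, ex_zero, Polynomial.coe_mul, Polynomial.coe_C, Polynomial.coe_pow, Polynomial.coe_X]
    ring

/-- the functions `∑_{n ≥ 1} (-1)^(n+1) (a X)^n / (n! n^l)` -/
noncomputable def uf (l : ℕ) (a : K) : K⟦X⟧ :=
  PowerSeries.mk fun n => if n = 0 then 0 else -(-a) ^ n / (n.factorial * (n : K) ^ l)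

lemma coeff_uf (l : ℕ) (a : K) (n : ℕ) :
    coeff n (uf l a) = if n = 0 then 0 else -(-a) ^ n / (n.factorial * (n : K) ^ l) := by rw [uf, coeff_mk]

lemma uf_zero (a : K) : uf 0 a = 1 - ex (-a) := by
  ext n
  rw [coeff_uf, map_sub, coeff_one, coeff_ex]
  split_ifs with h
  · rw [h]; simp
  · rw [pow_zero]; ring

lemma th_uf (l : ℕ) (a : K) : th (uf (l + 1) a) = uf l a := by
  ext n
  rw [coeff_th, coeff_uf, coeff_uf]
  split_ifs with h
  · rw [mul_zero]
  · have h1 : (n : K) ≠ 0 := by exact_mod_cast h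
    have h2 : (n.factorial : K) ≠ 0 := by exact_mod_cast n.factorial_ne_zero
    rw [pow_succ]
    field_simp

/-- the generators -/
noncomputable def vf (i : ℕ × Kˣ) : K⟦X⟧ := uf (i.1 + 1) (i.2 : K)

/-- linear combinations of the generators -/
noncomputable def lc (b : (ℕ × Kˣ) →₀ K) : K⟦X⟧ := Finsupp.linearCombination K vf b

lemma lc_add (b c : (ℕ × Kˣ) →₀ K) : lc (b + c) = lc b + lc c := map_add _ _ _

lemma lc_single (i : ℕ × Kˣ) (c : K) : lc (Finsupp.single i c) = C c * vf i := by
  rw [lc, Finsupp.linearCombination_single, smul_eq]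

/-- the exponential part of the derivative of a linear combination -/
noncomputable def e0 : ((ℕ × Kˣ) →₀ K) →ₗ[K] (K →₀ Polynomial K) :=
  Finsupp.linearCombination K fun i => if i.1 = 0 then Finsupp.single 0 1 - Finsupp.single (-(i.2 : K)) 1 else 0

/-- the other part of the derivative of a linear combination -/
noncomputable def e1 : ((ℕ × Kˣ) →₀ K) →ₗ[K] ((ℕ × Kˣ) →₀ K) :=
  Finsupp.linearCombination K fun i => if i.1 = 0 then 0 else Finsupp.single (i.1 - 1, i.2) 1

lemma e1_apply (b : (ℕ × Kˣ) →₀ K) (l : ℕ) (a : Kˣ) : e1 b (l, a) = b (l + 1, a) := by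
  classical
  induction b using Finsupp.induction_linear with
  | zero => simp
  | add b c hb hc => rw [map_add, Finsupp.add_apply, Finsupp.add_apply, hb, hc]
  | single i c =>
    obtain ⟨m, a'⟩ := i
    rw [e1, Finsupp.linearCombination_single]
    split_ifs with h
    · simp only at h
      subst h
      rw [smul_zero, Finsupp.zero_apply, Finsupp.single_apply, if_neg]
      simp
    · simp only at h
      rw [Finsupp.smul_apply, Finsupp.single_apply, Finsupp.single_apply, smul_eq_mul]
      have : ((m - 1, a') = (l, a)) ↔ ((m, a') = (l + 1, a)) := by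
        rw [Prod.mk.injEq, Prod.mk.injEq]
        constructor
        · rintro ⟨h1, h2⟩; exact ⟨by omega, h2⟩
        · rintro ⟨h1, h2⟩; exact ⟨by omega, h2⟩
      split_ifs with h1 h2 h2
      · rw [mul_one]
      · exact absurd (this.1 h1) h2
      · exact absurd (this.2 h2) h1
      · rw [mul_zero]

lemma e0_apply (b : (ℕ × Kˣ) →₀ K) (a : Kˣ) : e0 b (-(a : K)) = -Polynomial.C (b (0, a)) := by
  classical
  induction b using Finsupp.induction_linear with
  | zero => simp
  | add b c hb hc => rw [map_add, Finsupp.add_apply, Finsupp.add_apply, hb, hc, Polynomial.C_add]; ring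
  | single i c =>
    obtain ⟨m, a'⟩ := i
    have ha : (0 : K) ≠ -(a : K) := (neg_ne_zero.2 a.ne_zero).symm
    rw [e0, Finsupp.linearCombination_single]
    split_ifs with h
    · simp only at h
      subst h
      rw [Finsupp.smul_apply, Finsupp.sub_apply, Finsupp.single_apply, Finsupp.single_apply, Finsupp.single_apply,
        if_neg ha]
      have : ((-(a' : K)) = -(a : K)) ↔ ((0, a') = ((0, a) : ℕ × Kˣ)) := by
        rw [neg_inj, Units.val_inj, Prod.mk.injEq]
        simp
      split_ifs with h1 h2 h2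
      · rw [zero_sub, smul_neg, Polynomial.smul_eq_C_mul, mul_one]
      · exact absurd (this.1 h1) h2
      · exact absurd (this.2 h2) h1
      · simp
    · simp only at h
      rw [smul_zero, Finsupp.zero_apply, Finsupp.single_apply, if_neg]
      · simp
      · rw [Prod.mk.injEq]
        exact fun h1 => h h1.1

lemma re_csmul (c : K) (P : K →₀ Polynomial K) : re (c • P) = C c * re P := by
  have h1 : c • P = (Polynomial.C c) • P := by
    ext1 a
    rw [Finsupp.smul_apply, Finsupp.smul_apply, Polynomial.smul_eq_C_mul, smul_eq_mul]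
  rw [h1, re_smul, Polynomial.coe_C]

lemma th_lc (b : (ℕ × Kˣ) →₀ K) : th (lc b) = re (e0 b) + lc (e1 b) := by
  induction b using Finsupp.induction_linear with
  | zero =>
    have : lc (0 : (ℕ × Kˣ) →₀ K) = 0 := map_zero _
    rw [map_zero, map_zero, this, re_zero, map_zero, add_zero]
  | add b c hb hc => rw [map_add, map_add, lc_add, map_add, hb, hc, re_add, lc_add]; ring
  | single i c =>
    obtain ⟨m, a⟩ := i
    rw [lc_single, th_mul, th_C, zero_mul, zero_add, e0, e1, Finsupp.linearCombination_single,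
      Finsupp.linearCombination_single, vf, th_uf]
    split_ifs with h
    · simp only at h
      subst h
      have : lc (0 : (ℕ × Kˣ) →₀ K) = 0 := map_zero _
      rw [smul_zero, this, add_zero, re_csmul, re_sub, re_single, re_single, uf_zero, ex_zero]
      simp
    · simp only at h
      rw [smul_zero, re_zero, zero_add, Finsupp.smul_single, smul_eq_mul, mul_one, lc_single, vf]
      simp only
      rw [show m - 1 + 1 = m by omega]

/-- exponential polynomials and the generators are linearly independent -/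
theorem re_lc (N : ℕ) : ∀ (P : K →₀ Polynomial K) (b : (ℕ × Kˣ) →₀ K), (∀ i, b i ≠ 0 → i.1 < N) → re P + lc b = 0 →
    P = 0 ∧ b = 0 := by
  induction N with
  | zero =>
    intro P b hb h
    have h1 : b = 0 := by
      ext1 i
      by_contra hi
      exact absurd (hb i hi) (Nat.not_lt_zero _)
    rw [h1] at h
    have : lc (0 : (ℕ × Kˣ) →₀ K) = 0 := map_zero _
    rw [this, add_zero] at h
    exact ⟨re_inj h, h1⟩
  | succ N ih =>
    intro P b hb h
    have h1 := congrArg th h
    rw [map_add, th_re, th_lc, map_zero, ← add_assoc, ← re_add] at h1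
    obtain ⟨h2, h3⟩ := ih _ _ (by
      rintro ⟨l, a⟩ hla
      rw [e1_apply] at hla
      have := hb _ hla
      simp only at this ⊢
      omega) h1
    have h4 : b = 0 := by
      ext1 i
      obtain ⟨l, a⟩ := i
      cases l with
      | zero =>
        have h5 := DFunLike.congr_fun h2 (-(a : K))
        rw [Finsupp.add_apply, D0_apply, e0_apply, Finsupp.zero_apply] at h5
        have h6 := congrArg (fun r => Polynomial.coeff r 0) h5
        simp only [dl, mul_assoc, Polynomial.coeff_add, Polynomial.coeff_neg, Polynomial.coeff_C_zero,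
          Polynomial.mul_coeff_zero, Polynomial.coeff_X_zero, zero_mul, mul_zero, Polynomial.coeff_zero, zero_add] at h6
        rw [Finsupp.zero_apply]
        exact neg_eq_zero.1 h6
      | succ l =>
        rw [← e1_apply, h3]
        rfl
    rw [h4] at h
    have : lc (0 : (ℕ × Kˣ) →₀ K) = 0 := map_zero _
    rw [this, add_zero] at h
    exact ⟨re_inj h, h4⟩

theorem re_lc' {P : K →₀ Polynomial K} {b : (ℕ × Kˣ) →₀ K} (h : re P + lc b = 0) : P = 0 ∧ b = 0 := by
  refine re_lc (b.support.sup Prod.fst + 1) P b (fun i hi => ?_) h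
  have := Finset.le_sup (f := Prod.fst) (Finsupp.mem_support_iff.2 hi)
  omega

end Pool.Agent.V7H81.LW
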