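import Pool.Agent.V7H81.LW.AI
import Pool.Agent.R352.E.EF

/-!
# E-functions over a number field with a complex embedding
-/

set_option autoImplicit false
set_option linter.unusedSectionVars false

open PowerSeries Finset.HasAntidiagonal

namespace Pool.Agent.V7H81.LW

open Pool.Agent.R352.E (lcm_bound)

variable {L : Type} [Field L] [NumberField L] (io : L →+* ℂ)

/-- `m!` times the coefficient of `X ^ m` -/
noncomputable def cl (m : ℕ) (f : L⟦X⟧) : L := (m.factorial : L) * coeff m f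

lemma cl_mul (m : ℕ) (f g : L⟦X⟧) :
    cl m (f * g) = ∑ p ∈ antidiagonal m, (m.choose p.1 : L) * (cl p.1 f * cl p.2 g) := by
  rw [cl, coeff_mul, Finset.mul_sum]
  refine Finset.sum_congr rfl fun p hp => ?_
  rw [Finset.HasAntidiagonal.mem_antidiagonal] at hp
  have h1 : (m.choose p.1 : L) * p.1.factorial * p.2.factorial = m.factorial := by
    have := Nat.choose_mul_factorial_mul_factorial (show p.1 ≤ m by omega)
    rw [show m - p.1 = p.2 by omega] at this
    exact_mod_cast this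
  rw [cl, cl, ← h1]
  ring

lemma cl_add (m : ℕ) (f g : L⟦X⟧) : cl m (f + g) = cl m f + cl m g := by
  rw [cl, cl, cl, map_add, mul_add]

/-- the arithmetic conditions of Siegel's definition of E-functions (strict form), for one embedding -/
def EL (f : L⟦X⟧) : Prop := ∃ C : ℝ, 1 ≤ C ∧ (∀ m, ‖io (cl m f)‖ ≤ C ^ (m + 1)) ∧
  ∀ m, ∃ d : ℕ, 0 < d ∧ (d : ℝ) ≤ C ^ (m + 1) ∧ ∀ j ≤ m, IsIntegral ℤ ((d : L) * cl j f)

variable {io}

lemma EL.mul {f g : L⟦X⟧} (hf : EL io f) (hg : EL io g) : EL io (f * g) := by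
  obtain ⟨C1, hC1, h1, d1⟩ := hf
  obtain ⟨C2, hC2, h2, d2⟩ := hg
  set C := max C1 C2 with hC
  have hC0 : 1 ≤ C := hC1.trans (le_max_left _ _)
  have h1' : ∀ m, ‖io (cl m f)‖ ≤ C ^ (m + 1) := fun m =>
    (h1 m).trans (pow_le_pow_left₀ (by linarith) (le_max_left _ _) _)
  have h2' : ∀ m, ‖io (cl m g)‖ ≤ C ^ (m + 1) := fun m =>
    (h2 m).trans (pow_le_pow_left₀ (by linarith) (le_max_right _ _) _)
  have hC2' : C ^ 2 ≤ 2 * C ^ 2 := by nlinarith [sq_nonneg C]
  refine ⟨2 * C ^ 2, by nlinarith, fun m => ?_, fun m => ?_⟩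
  · rw [cl_mul, map_sum]
    refine (norm_sum_le _ _).trans ?_
    have h3 : ∀ p ∈ antidiagonal m, ‖io ((m.choose p.1 : L) * (cl p.1 f * cl p.2 g))‖ ≤
        (m.choose p.1 : ℝ) * C ^ (m + 2) := by
      intro p hp
      rw [Finset.HasAntidiagonal.mem_antidiagonal] at hp
      rw [map_mul, map_mul, map_natCast, norm_mul, norm_mul, Complex.norm_natCast]
      refine mul_le_mul_of_nonneg_left ?_ (by positivity)
      refine (mul_le_mul (h1' _) (h2' _) (norm_nonneg _) (by positivity)).trans (le_of_eq ?_)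
      rw [← pow_add]; congr 1; omega
    refine (Finset.sum_le_sum h3).trans ?_
    rw [← Finset.sum_mul]
    have h4 : ∑ p ∈ antidiagonal m, (m.choose p.1 : ℝ) = 2 ^ m := by
      rw [Finset.Nat.sum_antidiagonal_eq_sum_range_succ_mk]
      exact_mod_cast Nat.sum_range_choose m
    rw [h4, mul_pow, ← pow_mul]
    refine mul_le_mul (pow_le_pow_right₀ (by norm_num) (by omega)) (pow_le_pow_right₀ hC0 (by omega))
      (by positivity) (by positivity)
  · obtain ⟨e1, he1, he1C, he1i⟩ := d1 m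
    obtain ⟨e2, he2, he2C, he2i⟩ := d2 m
    refine ⟨e1 * e2, Nat.mul_pos he1 he2, ?_, fun j hj => ?_⟩
    · push_cast
      calc (e1 : ℝ) * e2 ≤ C ^ (m + 1) * C ^ (m + 1) :=
            mul_le_mul (he1C.trans (pow_le_pow_left₀ (by linarith) (le_max_left _ _) _))
              (he2C.trans (pow_le_pow_left₀ (by linarith) (le_max_right _ _) _)) (by positivity) (by positivity)
        _ = (C ^ 2) ^ (m + 1) := by rw [← mul_pow, ← sq]
        _ ≤ (2 * C ^ 2) ^ (m + 1) := pow_le_pow_left₀ (by positivity) hC2' _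
    · have e : ((e1 * e2 : ℕ) : L) * cl j (f * g) = ∑ p ∈ antidiagonal j, (j.choose p.1 : L) *
          (((e1 : L) * cl p.1 f) * ((e2 : L) * cl p.2 g)) := by
        rw [cl_mul, Finset.mul_sum]
        push_cast
        exact Finset.sum_congr rfl fun p _ => by ring
      rw [e]
      refine IsIntegral.sum _ fun p hp => ?_
      rw [Finset.HasAntidiagonal.mem_antidiagonal] at hp
      exact ((isIntegral_natCast _).mul ((he1i p.1 (by omega)).mul (he2i p.2 (by omega))))

lemma EL.add {f g : L⟦X⟧} (hf : EL io f) (hg : EL io g) : EL io (f + g) := by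
  obtain ⟨C1, hC1, h1, d1⟩ := hf
  obtain ⟨C2, hC2, h2, d2⟩ := hg
  set C := max C1 C2 with hC
  have hC0 : 1 ≤ C := hC1.trans (le_max_left _ _)
  have h1' : ∀ m, ‖io (cl m f)‖ ≤ C ^ (m + 1) := fun m =>
    (h1 m).trans (pow_le_pow_left₀ (by linarith) (le_max_left _ _) _)
  have h2' : ∀ m, ‖io (cl m g)‖ ≤ C ^ (m + 1) := fun m =>
    (h2 m).trans (pow_le_pow_left₀ (by linarith) (le_max_right _ _) _)
  have hC2' : C ^ 2 ≤ 2 * C ^ 2 := by nlinarith [sq_nonneg C]
  have hC3 : C ≤ C ^ 2 := by nlinarith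
  refine ⟨2 * C ^ 2, by nlinarith, fun m => ?_, fun m => ?_⟩
  · rw [cl_add, map_add]
    refine (norm_add_le _ _).trans ?_
    calc ‖io (cl m f)‖ + ‖io (cl m g)‖ ≤ 2 * C ^ (m + 1) := by linarith [h1' m, h2' m]
      _ ≤ 2 ^ (m + 1) * (C ^ 2) ^ (m + 1) := by
        refine mul_le_mul ?_ (pow_le_pow_left₀ (by linarith) hC3 _) (by positivity) (by positivity)
        exact le_self_pow₀ (by norm_num) (by omega)
      _ = _ := by rw [← mul_pow]
  · obtain ⟨e1, he1, he1C, he1i⟩ := d1 m
    obtain ⟨e2, he2, he2C, he2i⟩ := d2 m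
    refine ⟨e1 * e2, Nat.mul_pos he1 he2, ?_, fun j hj => ?_⟩
    · push_cast
      calc (e1 : ℝ) * e2 ≤ C ^ (m + 1) * C ^ (m + 1) :=
            mul_le_mul (he1C.trans (pow_le_pow_left₀ (by linarith) (le_max_left _ _) _))
              (he2C.trans (pow_le_pow_left₀ (by linarith) (le_max_right _ _) _)) (by positivity) (by positivity)
        _ = (C ^ 2) ^ (m + 1) := by rw [← mul_pow, ← sq]
        _ ≤ (2 * C ^ 2) ^ (m + 1) := pow_le_pow_left₀ (by positivity) hC2' _
    · have e : ((e1 * e2 : ℕ) : L) * cl j (f + g) = (e2 : L) * ((e1 : L) * cl j f) + (e1 : L) * ((e2 : L) * cl j g) := by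
        rw [cl_add]
        push_cast
        ring
      rw [e]
      exact ((isIntegral_natCast _).mul (he1i j hj)).add ((isIntegral_natCast _).mul (he2i j hj))

/-- a denominator -/
lemma exists_den (a : L) : ∃ d : ℕ, 0 < d ∧ IsIntegral ℤ ((d : L) * a) := by
  obtain ⟨y, hy0, hy⟩ := IsAlgebraic.exists_integral_multiple
    ((IsFractionRing.isAlgebraic_iff ℤ ℚ L).2 (Algebra.IsAlgebraic.isAlgebraic (R := ℚ) a))
  refine ⟨y.natAbs, Int.natAbs_pos.2 hy0, ?_⟩
  rw [zsmul_eq_mul] at hy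
  rcases Int.natAbs_eq y with h | h
  · rw [h] at hy
    simpa using hy
  · rw [h] at hy
    have := hy.neg
    simpa using this

lemma EL.C (c : L) : EL io (PowerSeries.C c) := by
  obtain ⟨d, hd, hdi⟩ := exists_den c
  have hd1 : (1 : ℝ) ≤ d := by exact_mod_cast hd
  have hcl : ∀ m, cl m (PowerSeries.C c) = if m = 0 then c else 0 := by
    intro m
    rw [cl, coeff_C]
    split_ifs with h
    · rw [h]; simp
    · rw [mul_zero]
  set A : ℝ := max (d : ℝ) ‖io c‖ with hA
  have hA1 : 1 ≤ A := hd1.trans (le_max_left _ _)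
  refine ⟨A, hA1, fun m => ?_, fun m => ⟨d, hd, ?_, fun j hj => ?_⟩⟩
  · rw [hcl]
    split_ifs with h
    · rw [h, zero_add, pow_one]; exact le_max_right _ _
    · rw [map_zero, norm_zero]; positivity
  · exact (le_max_left _ _).trans (le_self_pow₀ hA1 (by omega))
  · rw [hcl]
    split_ifs
    · exact hdi
    · rw [mul_zero]; exact isIntegral_zero

lemma EL.ex (a : L) : EL io (ex a) := by
  obtain ⟨d, hd, hdi⟩ := exists_den a
  have hd1 : (1 : ℝ) ≤ d := by exact_mod_cast hd
  have hcl : ∀ m, cl m (LW.ex a) = a ^ m := by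
    intro m
    rw [cl, coeff_ex]
    have : (m.factorial : L) ≠ 0 := by exact_mod_cast m.factorial_ne_zero
    field_simp
  set A : ℝ := max (d : ℝ) ‖io a‖ with hA
  have hA1 : 1 ≤ A := hd1.trans (le_max_left _ _)
  refine ⟨A, hA1, fun m => ?_, fun m => ⟨d ^ m, pow_pos hd m, ?_, fun j hj => ?_⟩⟩
  · rw [hcl, map_pow, norm_pow]
    exact (pow_le_pow_left₀ (norm_nonneg _) (le_max_right _ _) m).trans (pow_le_pow_right₀ hA1 (by omega))
  · push_cast
    exact (pow_le_pow_left₀ (by positivity) (le_max_left _ _) m).trans (pow_le_pow_right₀ hA1 (by omega))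
  · rw [hcl]
    have e : ((d ^ m : ℕ) : L) * a ^ j = ((d ^ (m - j) : ℕ) : L) * ((d : L) * a) ^ j := by
      rw [mul_pow]
      push_cast
      have : (d : L) ^ m = d ^ (m - j) * d ^ j := by rw [← pow_add]; congr 1; omega
      rw [this]; ring
    rw [e]
    exact (isIntegral_natCast _).mul (hdi.pow j)

lemma EL.uf (l : ℕ) (a : L) : EL io (uf l a) := by
  obtain ⟨d, hd, hdi⟩ := exists_den a
  have hd1 : (1 : ℝ) ≤ d := by exact_mod_cast hd
  have hcl : ∀ m, cl m (LW.uf l a) = if m = 0 then 0 else -(-a) ^ m / (m : L) ^ l := by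
    intro m
    rw [cl, coeff_uf]
    have : (m.factorial : L) ≠ 0 := by exact_mod_cast m.factorial_ne_zero
    split_ifs
    · rw [mul_zero]
    · field_simp
  set A : ℝ := max (d : ℝ) ‖io a‖ with hA
  have hA1 : 1 ≤ A := hd1.trans (le_max_left _ _)
  have hb1 : (1 : ℝ) ≤ (2 ^ 8 : ℝ) ^ l := one_le_pow₀ (by norm_num)
  have hAB : 1 ≤ A * (2 ^ 8) ^ l := one_le_mul_of_one_le_of_one_le hA1 hb1
  refine ⟨A * (2 ^ 8) ^ l, hAB, fun m => ?_, fun m => ⟨d ^ m * Nat.lcmUpto m ^ l, ?_, ?_, fun j hj => ?_⟩⟩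
  · rw [hcl]
    split_ifs with h
    · rw [map_zero, norm_zero]; positivity
    · rw [map_div₀, map_neg, map_pow, map_neg, map_pow, map_natCast, norm_div, norm_neg, norm_pow, norm_neg, norm_pow,
        Complex.norm_natCast]
      have hm1 : (1 : ℝ) ≤ (m : ℝ) ^ l := one_le_pow₀ (by exact_mod_cast Nat.pos_of_ne_zero h)
      refine (div_le_self (by positivity) hm1).trans ?_
      calc ‖io a‖ ^ m ≤ (A * (2 ^ 8) ^ l) ^ m := pow_le_pow_left₀ (norm_nonneg _)
            ((le_max_right _ _).trans (le_mul_of_one_le_right (by linarith) hb1)) m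
        _ ≤ _ := pow_le_pow_right₀ hAB (by omega)
  · exact Nat.mul_pos (pow_pos hd m) (pow_pos (Nat.lcmUpto_pos m) _)
  · push_cast
    have h2 : (Nat.lcmUpto m : ℝ) ^ l ≤ ((2 ^ 8 : ℝ) ^ l) ^ m := by
      rw [← pow_mul, mul_comm l m, pow_mul]
      exact pow_le_pow_left₀ (by positivity) (lcm_bound m) l
    calc (d : ℝ) ^ m * (Nat.lcmUpto m : ℝ) ^ l ≤ A ^ m * ((2 ^ 8 : ℝ) ^ l) ^ m := by
          refine mul_le_mul ?_ h2 (by positivity) (by positivity)
          exact pow_le_pow_left₀ (by positivity) (le_max_left _ _) m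
      _ = (A * (2 ^ 8) ^ l) ^ m := by rw [mul_pow A]
      _ ≤ (A * (2 ^ 8) ^ l) ^ (m + 1) := pow_le_pow_right₀ hAB (by omega)
  · rw [hcl]
    split_ifs with h
    · rw [mul_zero]; exact isIntegral_zero
    · have hdv : j ∣ Nat.lcmUpto m := Finset.dvd_lcm (f := id) (Finset.mem_Icc.2 ⟨by omega, hj⟩)
      obtain ⟨c, hc⟩ := hdv
      have hj0 : (j : L) ≠ 0 := by exact_mod_cast h
      have h3 : (d : L) ^ m = d ^ (m - j) * d ^ j := by rw [← pow_add]; congr 1; omega
      have e : ((d ^ m * Nat.lcmUpto m ^ l : ℕ) : L) * (-(-a) ^ j / (j : L) ^ l) =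
          -((-1) ^ j * (((d ^ (m - j) * c ^ l : ℕ) : L) * ((d : L) * a) ^ j)) := by
        rw [hc]
        push_cast
        rw [h3, mul_pow, neg_pow, mul_pow]
        field_simp
      rw [e]
      exact ((isIntegral_one.neg.pow j).mul ((isIntegral_natCast _).mul (hdi.pow j))).neg

lemma EL.zero : EL io (0 : L⟦X⟧) := by
  have := EL.C (io := io) (0 : L)
  rwa [map_zero] at this

lemma EL.one : EL io (1 : L⟦X⟧) := by
  have := EL.C (io := io) (1 : L)
  rwa [map_one] at this

variable (io)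

/-- absolute convergence at `1` -/
def Cc (f : L⟦X⟧) : Prop := Summable fun m : ℕ => ‖io (coeff m f)‖

/-- the value at `1` -/
noncomputable def evc (f : L⟦X⟧) : ℂ := ∑' m : ℕ, io (coeff m f)

variable {io}

lemma EL.cc {f : L⟦X⟧} (hf : EL io f) : Cc io f := by
  obtain ⟨C, hC, h, _⟩ := hf
  unfold Cc
  have hs : Summable (fun m : ℕ => C * (C ^ m / (m.factorial : ℝ))) := (Real.summable_pow_div_factorial C).mul_left C
  refine Summable.of_nonneg_of_le (fun m => norm_nonneg _) (fun m => ?_) hs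
  have h1 := h m
  rw [cl, map_mul, map_natCast, norm_mul, Complex.norm_natCast] at h1
  rw [mul_div_assoc', le_div_iff₀ (by positivity), ← pow_succ']
  linarith

lemma evc_add {f g : L⟦X⟧} (hf : Cc io f) (hg : Cc io g) : evc io (f + g) = evc io f + evc io g := by
  unfold evc
  rw [← Summable.tsum_add (Summable.of_norm hf) (Summable.of_norm hg)]
  refine tsum_congr fun m => ?_
  rw [map_add, map_add]

lemma evc_mul {f g : L⟦X⟧} (hf : Cc io f) (hg : Cc io g) : evc io (f * g) = evc io f * evc io g := by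
  unfold evc
  rw [tsum_mul_tsum_eq_tsum_sum_antidiagonal_of_summable_norm hf hg]
  refine tsum_congr fun m => ?_
  rw [coeff_mul, map_sum]
  exact Finset.sum_congr rfl fun p _ => map_mul _ _ _

lemma evc_C (c : L) : evc io (PowerSeries.C c) = io c := by
  unfold evc
  rw [tsum_eq_single 0]
  · simp
  · intro m hm
    rw [coeff_C, if_neg hm, map_zero]

lemma evc_ex (a : L) : evc io (ex a) = Complex.exp (io a) := by
  rw [Complex.exp_eq_exp_ℂ, NormedSpace.exp_eq_tsum_div]
  unfold evc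
  refine tsum_congr fun m => ?_
  rw [coeff_ex, map_div₀, map_pow, map_natCast]

/-- the numbers `E_l(z) = ∑_{n ≥ 1} (-1)^(n+1) z^n / (n! n^l)` -/
noncomputable def Ec (l : ℕ) (z : ℂ) : ℂ := ∑' n : ℕ, if n = 0 then 0 else -(-z) ^ n / (n.factorial * (n : ℂ) ^ l)

lemma evc_uf (l : ℕ) (a : L) : evc io (uf l a) = Ec l (io a) := by
  unfold evc Ec
  refine tsum_congr fun m => ?_
  rw [coeff_uf]
  split_ifs
  · rw [map_zero]
  · rw [map_div₀, map_neg, map_pow, map_neg, map_mul, map_pow, map_natCast, map_natCast]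

lemma EL.sum {ι : Type*} (s : Finset ι) (f : ι → L⟦X⟧) (hf : ∀ i ∈ s, EL io (f i)) : EL io (∑ i ∈ s, f i) := by
  classical
  induction s using Finset.induction_on with
  | empty => rw [Finset.sum_empty]; exact EL.zero
  | insert a s ha ih =>
    rw [Finset.sum_insert ha]
    exact (hf a (Finset.mem_insert_self _ _)).add (ih fun i hi => hf i (Finset.mem_insert_of_mem hi))

lemma EL.prod {ι : Type*} (s : Finset ι) (f : ι → L⟦X⟧) (hf : ∀ i ∈ s, EL io (f i)) : EL io (∏ i ∈ s, f i) := by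
  classical
  induction s using Finset.induction_on with
  | empty => rw [Finset.prod_empty]; exact EL.one
  | insert a s ha ih =>
    rw [Finset.prod_insert ha]
    exact (hf a (Finset.mem_insert_self _ _)).mul (ih fun i hi => hf i (Finset.mem_insert_of_mem hi))

lemma EL.pow {f : L⟦X⟧} (hf : EL io f) (n : ℕ) : EL io (f ^ n) := by
  induction n with
  | zero => rw [pow_zero]; exact EL.one
  | succ n ih => rw [pow_succ]; exact ih.mul hf

lemma evc_sum {ι : Type*} (s : Finset ι) (f : ι → L⟦X⟧) (hf : ∀ i ∈ s, EL io (f i)) :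
    evc io (∑ i ∈ s, f i) = ∑ i ∈ s, evc io (f i) := by
  classical
  induction s using Finset.induction_on with
  | empty =>
    rw [Finset.sum_empty, Finset.sum_empty]
    have := evc_C (io := io) (0 : L)
    rwa [map_zero, map_zero] at this
  | insert a s ha ih =>
    rw [Finset.sum_insert ha, Finset.sum_insert ha, evc_add (hf a (Finset.mem_insert_self _ _)).cc
      (EL.sum s f fun i hi => hf i (Finset.mem_insert_of_mem hi)).cc, ih fun i hi => hf i (Finset.mem_insert_of_mem hi)]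

lemma evc_prod {ι : Type*} (s : Finset ι) (f : ι → L⟦X⟧) (hf : ∀ i ∈ s, EL io (f i)) :
    evc io (∏ i ∈ s, f i) = ∏ i ∈ s, evc io (f i) := by
  classical
  induction s using Finset.induction_on with
  | empty =>
    rw [Finset.prod_empty, Finset.prod_empty]
    have := evc_C (io := io) (1 : L)
    rwa [map_one, map_one] at this
  | insert a s ha ih =>
    rw [Finset.prod_insert ha, Finset.prod_insert ha, evc_mul (hf a (Finset.mem_insert_self _ _)).cc
      (EL.prod s f fun i hi => hf i (Finset.mem_insert_of_mem hi)).cc, ih fun i hi => hf i (Finset.mem_insert_of_mem hi)]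

lemma evc_pow {f : L⟦X⟧} (hf : EL io f) (n : ℕ) : evc io (f ^ n) = evc io f ^ n := by
  induction n with
  | zero =>
    rw [pow_zero, pow_zero]
    have := evc_C (io := io) (1 : L)
    rwa [map_one, map_one] at this
  | succ n ih => rw [pow_succ, pow_succ, evc_mul (hf.pow n).cc hf.cc, ih]

end Pool.Agent.V7H81.LW
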