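import Mathlib

/-!
# Exponential polynomials as power series
-/

set_option autoImplicit false
set_option linter.unusedSectionVars false

open PowerSeries

namespace Pool.Agent.V7H81.LW

variable {K : Type} [Field K] [CharZero K]

/-- the derivation `X d/dX` -/
noncomputable def th : Derivation K K⟦X⟧ K⟦X⟧ := (X : K⟦X⟧) • (derivative K : Derivation K K⟦X⟧ K⟦X⟧)

lemma th_apply (f : K⟦X⟧) : th f = X * derivative K f := rfl

lemma coeff_th (n : ℕ) (f : K⟦X⟧) : coeff n (th f) = n * coeff n f := by
  rw [th_apply]
  cases n with
  | zero => simp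
  | succ n => rw [coeff_succ_X_mul, coeff_derivative]; push_cast; ring

lemma th_mul (f g : K⟦X⟧) : th (f * g) = th f * g + f * th g := by
  rw [Derivation.leibniz]; simp only [smul_eq_mul]; ring

lemma th_X_pow (d : ℕ) : th (X ^ d : K⟦X⟧) = (d : K⟦X⟧) * X ^ d := by
  ext n
  rw [coeff_th, show ((d : K⟦X⟧)) = C (d : K) by simp, coeff_C_mul, coeff_X_pow]
  split_ifs with h
  · rw [h]
  · simp

lemma th_C (c : K) : th (C c : K⟦X⟧) = 0 := by
  ext n
  rw [coeff_th, coeff_C]
  split_ifs with h
  · rw [h]; simp
  · simp

/-- a first order equation -/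
lemma first_order {f : K⟦X⟧} {d : ℕ} {c : K} (h : th f = (d : K⟦X⟧) * f + C c * X ^ d) :
    c = 0 ∧ ∃ k : K, f = C k * X ^ d := by
  have hc : ∀ n : ℕ, ((n : K) - d) * coeff n f = if n = d then c else 0 := by
    intro n
    have h1 := congrArg (coeff n) h
    rw [coeff_th, map_add, show ((d : K⟦X⟧)) = C (d : K) by simp, coeff_C_mul, coeff_C_mul, coeff_X_pow] at h1
    split_ifs at h1 ⊢ with hn <;> linear_combination h1
  refine ⟨?_, coeff d f, ?_⟩
  · have h1 := hc d
    rw [sub_self, zero_mul, if_pos rfl] at h1
    exact h1.symm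
  · ext n
    rw [coeff_C_mul, coeff_X_pow]
    split_ifs with hn
    · rw [hn, mul_one]
    · rw [mul_zero]
      have h1 := hc n
      rw [if_neg hn] at h1
      rcases mul_eq_zero.1 h1 with h2 | h2
      · exfalso
        apply hn
        have : (n : K) = d := by linear_combination h2
        exact_mod_cast this
      · exact h2

lemma const_of_th {f : K⟦X⟧} (h : th f = 0) : ∃ k : K, f = C k := by
  obtain ⟨-, k, hk⟩ := first_order (f := f) (d := 0) (c := 0) (by rw [h]; simp)
  exact ⟨k, by rw [hk]; simp⟩

/-- `exp (a X)` -/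
noncomputable def ex (a : K) : K⟦X⟧ := PowerSeries.mk fun n => a ^ n / n.factorial

lemma coeff_ex (n : ℕ) (a : K) : coeff n (ex a) = a ^ n / n.factorial := by rw [ex, coeff_mk]

lemma ex_zero : ex (0 : K) = 1 := by
  ext n
  rw [coeff_ex, coeff_one]
  split_ifs with h
  · rw [h]; simp
  · rw [zero_pow h]; simp

lemma ex_add (a b : K) : ex (a + b) = ex a * ex b := by
  ext n
  rw [coeff_ex, coeff_mul, add_pow, Finset.sum_div,
    Finset.Nat.sum_antidiagonal_eq_sum_range_succ (fun i j => coeff i (ex a) * coeff j (ex b))]
  refine Finset.sum_congr rfl fun i hi => ?_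
  have hi' : i ≤ n := by have := Finset.mem_range.1 hi; omega
  rw [coeff_ex, coeff_ex]
  have h3 : (n.choose i : K) * i.factorial * (n - i).factorial = n.factorial := by
    exact_mod_cast Nat.choose_mul_factorial_mul_factorial hi'
  have h4 : (n.factorial : K) ≠ 0 := by exact_mod_cast n.factorial_ne_zero
  have h5 : (i.factorial : K) ≠ 0 := by exact_mod_cast i.factorial_ne_zero
  have h6 : ((n - i).factorial : K) ≠ 0 := by exact_mod_cast (n - i).factorial_ne_zero
  field_simp
  linear_combination (a ^ i * b ^ (n - i)) * h3

lemma ex_neg (a : K) : ex a * ex (-a) = 1 := by rw [← ex_add, add_neg_cancel, ex_zero]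

lemma ex_ne (a : K) : ex a ≠ 0 := by
  intro h
  have := ex_neg a
  rw [h, zero_mul] at this
  exact zero_ne_one this

lemma th_ex (a : K) : th (ex a) = C a * X * ex a := by
  ext n
  rw [coeff_th, mul_assoc, coeff_C_mul]
  cases n with
  | zero => simp
  | succ n =>
    rw [coeff_succ_X_mul, coeff_ex, coeff_ex, Nat.factorial_succ]
    have h4 : (n.factorial : K) ≠ 0 := by exact_mod_cast n.factorial_ne_zero
    have h5 : (n : K) + 1 ≠ 0 := by exact_mod_cast n.succ_ne_zero
    push_cast
    rw [pow_succ]
    field_simp

/-- the exponential polynomial with the coefficients `P` -/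
noncomputable def re (P : K →₀ Polynomial K) : K⟦X⟧ := P.sum fun a q => (q : K⟦X⟧) * ex a

lemma re_zero : re (0 : K →₀ Polynomial K) = 0 := by rw [re, Finsupp.sum_zero_index]

lemma re_single (a : K) (q : Polynomial K) : re (Finsupp.single a q) = (q : K⟦X⟧) * ex a := by
  rw [re, Finsupp.sum_single_index]
  simp

lemma re_add (P Q : K →₀ Polynomial K) : re (P + Q) = re P + re Q := by
  rw [re, re, re, Finsupp.sum_add_index']
  · intro a; simp
  · intro a p q; rw [Polynomial.coe_add, add_mul]

lemma re_smul (p : Polynomial K) (P : K →₀ Polynomial K) : re (p • P) = (p : K⟦X⟧) * re P := by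
  induction P using Finsupp.induction_linear with
  | zero => rw [smul_zero, re_zero, mul_zero]
  | add P Q hP hQ => rw [smul_add, re_add, re_add, hP, hQ, mul_add]
  | single a q => rw [Finsupp.smul_single, re_single, re_single, smul_eq_mul, Polynomial.coe_mul, mul_assoc]

lemma re_neg (P : K →₀ Polynomial K) : re (-P) = -re P := by
  have h := re_smul (-1) P
  rw [neg_one_smul] at h
  rw [h]
  simp

lemma re_sub (P Q : K →₀ Polynomial K) : re (P - Q) = re P - re Q := by
  rw [sub_eq_add_neg, re_add, re_neg, sub_eq_add_neg]

/-- the derivative of the coefficient of `exp (a X)` -/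
noncomputable def dl (a : K) (q : Polynomial K) : Polynomial K :=
  Polynomial.X * Polynomial.derivative q + Polynomial.C a * Polynomial.X * q

lemma dl_zero (a : K) : dl a (0 : Polynomial K) = 0 := by simp [dl]

lemma dl_add (a : K) (p q : Polynomial K) : dl a (p + q) = dl a p + dl a q := by
  simp only [dl, Polynomial.derivative_add]; ring

/-- the derivative of an exponential polynomial -/
noncomputable def D0 (P : K →₀ Polynomial K) : K →₀ Polynomial K :=
  Finsupp.onFinset P.support (fun a => dl a (P a)) (fun a h => by
    rw [Finsupp.mem_support_iff]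
    intro h0
    rw [h0, dl_zero] at h
    exact h rfl)

lemma D0_apply (P : K →₀ Polynomial K) (a : K) : D0 P a = dl a (P a) := rfl

lemma D0_add (P Q : K →₀ Polynomial K) : D0 (P + Q) = D0 P + D0 Q := by
  ext1 a
  rw [D0_apply, Finsupp.add_apply, Finsupp.add_apply, D0_apply, D0_apply, dl_add]

lemma D0_single (a : K) (q : Polynomial K) : D0 (Finsupp.single a q) = Finsupp.single a (dl a q) := by
  classical
  ext1 b
  rw [D0_apply, Finsupp.single_apply, Finsupp.single_apply]
  split_ifs with h
  · rw [h]
  · rw [dl_zero]

lemma th_coe (q : Polynomial K) : th (q : K⟦X⟧) = ((Polynomial.X * Polynomial.derivative q : Polynomial K) : K⟦X⟧) := by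
  ext n
  rw [coeff_th, Polynomial.coeff_coe, Polynomial.coeff_coe]
  cases n with
  | zero => simp
  | succ n => rw [Polynomial.coeff_X_mul, Polynomial.coeff_derivative]; push_cast; ring

lemma th_re (P : K →₀ Polynomial K) : th (re P) = re (D0 P) := by
  induction P using Finsupp.induction_linear with
  | zero =>
    have : D0 (0 : K →₀ Polynomial K) = 0 := by
      ext1 a
      rw [D0_apply, Finsupp.zero_apply, dl_zero]
    rw [this, re_zero, map_zero]
  | add P Q hP hQ => rw [D0_add, re_add, re_add, map_add, hP, hQ]
  | single a q =>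
    rw [D0_single, re_single, re_single, th_mul, th_coe, th_ex, dl, Polynomial.coe_add, Polynomial.coe_mul (Polynomial.C a * _),
      Polynomial.coe_mul (Polynomial.C a), Polynomial.coe_C, Polynomial.coe_X]
    ring

/-- the elimination step -/
lemma elim_ne {a b : K} (hab : a ≠ b) {p q : Polynomial K} (hp : p ≠ 0) (hq : q ≠ 0) :
    p * dl b q - dl a p * q ≠ 0 := by
  intro h
  have h1 : p * dl b q - dl a p * q = Polynomial.X * (p * Polynomial.derivative q - Polynomial.derivative p * q +
      Polynomial.C (b - a) * (p * q)) := by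
    simp only [dl, Polynomial.C_sub]; ring
  rw [h1] at h
  have h2 := (mul_eq_zero.1 h).resolve_left Polynomial.X_ne_zero
  have hba : b - a ≠ 0 := sub_ne_zero.2 hab.symm
  have hpq : p * q ≠ 0 := mul_ne_zero hp hq
  have h3 := congrArg (fun r => Polynomial.coeff r (p.natDegree + q.natDegree)) h2
  simp only [Polynomial.coeff_add, Polynomial.coeff_sub, Polynomial.coeff_C_mul, Polynomial.coeff_zero] at h3
  have key : ∀ r s : Polynomial K, s ≠ 0 → (r * Polynomial.derivative s).coeff (r.natDegree + s.natDegree) = 0 := by
    intro r s hs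
    by_cases h0 : s.natDegree = 0
    · rw [Polynomial.eq_C_of_natDegree_eq_zero h0]
      simp
    · apply Polynomial.coeff_eq_zero_of_natDegree_lt
      have h4 := Polynomial.natDegree_derivative_lt h0
      have h5 := Polynomial.natDegree_mul_le (p := r) (q := Polynomial.derivative s)
      omega
  have h4 := key p q hq
  have h5 := key q p hp
  rw [h4, mul_comm (Polynomial.derivative p) q, add_comm p.natDegree, h5, add_comm q.natDegree,
    Polynomial.coeff_mul_degree_add_degree] at h3
  rw [sub_zero, zero_add] at h3
  rcases mul_eq_zero.1 h3 with h6 | h6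
  · exact hba h6
  · rcases mul_eq_zero.1 h6 with h7 | h7
    · exact hp (Polynomial.leadingCoeff_eq_zero.1 h7)
    · exact hq (Polynomial.leadingCoeff_eq_zero.1 h7)

/-- a set which is stable under the operations contains a multiple of an exponential -/
lemma red (J : Set K⟦X⟧) (hsub : ∀ f ∈ J, ∀ g ∈ J, f - g ∈ J) (hmul : ∀ (p : Polynomial K), ∀ f ∈ J, (p : K⟦X⟧) * f ∈ J)
    (hth : ∀ f ∈ J, th f ∈ J) (P : K →₀ Polynomial K) (hP : P ≠ 0) (hPJ : re P ∈ J) :
    ∃ (a : K) (q : Polynomial K), q ≠ 0 ∧ (q : K⟦X⟧) * ex a ∈ J := by
  classical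
  obtain ⟨n, hn⟩ : ∃ n, n = P.support.card := ⟨_, rfl⟩
  induction n using Nat.strong_induction_on generalizing P with
  | _ n ih =>
    obtain ⟨a, ha⟩ := Finsupp.support_nonempty_iff.2 hP
    have ha0 := Finsupp.mem_support_iff.1 ha
    obtain ⟨Q, hQ⟩ : ∃ Q, Q = (P a) • D0 P - (dl a (P a)) • P := ⟨_, rfl⟩
    have hQJ : re Q ∈ J := by
      rw [hQ, re_sub, re_smul, re_smul, ← th_re]
      exact hsub _ (hmul _ _ (hth _ hPJ)) _ (hmul _ _ hPJ)
    have hQb : ∀ b, Q b = P a * dl b (P b) - dl a (P a) * P b := by
      intro b
      rw [hQ, Finsupp.sub_apply, Finsupp.smul_apply, Finsupp.smul_apply, D0_apply, smul_eq_mul, smul_eq_mul]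
    by_cases hQ0 : Q = 0
    · refine ⟨a, P a, ha0, ?_⟩
      have : P = Finsupp.single a (P a) := by
        ext1 b
        rw [Finsupp.single_apply]
        split_ifs with h
        · rw [h]
        · by_contra hb
          have h1 := hQb b
          rw [hQ0, Finsupp.zero_apply] at h1
          exact elim_ne h ha0 hb h1.symm
      rw [this, re_single] at hPJ
      simpa using hPJ
    · have hlt : Q.support.card < n := by
        rw [hn]
        apply Finset.card_lt_card
        rw [Finset.ssubset_iff_of_subset]
        · refine ⟨a, ha, ?_⟩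
          rw [Finsupp.notMem_support_iff, hQb]
          ring
        · intro b hb
          rw [Finsupp.mem_support_iff] at hb ⊢
          intro h0
          apply hb
          rw [hQb, h0, dl_zero]
          ring
      exact ih _ hlt Q hQ0 hQJ rfl

/-- exponentials are linearly independent over the polynomials -/
lemma re_inj {P : K →₀ Polynomial K} (h : re P = 0) : P = 0 := by
  by_contra hP
  obtain ⟨a, q, hq, hqa⟩ := red ({0} : Set K⟦X⟧) (by
      rintro f rfl g rfl
      simp) (by
      rintro p f rfl
      simp) (by
      rintro f rfl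
      simp) P hP (by simp [h])
  rw [Set.mem_singleton_iff] at hqa
  rcases mul_eq_zero.1 hqa with h1 | h1
  · apply hq
    exact_mod_cast h1
  · exact ex_ne a h1

/-- a set which is stable under the operations and contains a nonzero polynomial contains a power of `X` -/
lemma red2 (J : Set K⟦X⟧) (hsub : ∀ f ∈ J, ∀ g ∈ J, f - g ∈ J) (hmul : ∀ (p : Polynomial K), ∀ f ∈ J, (p : K⟦X⟧) * f ∈ J)
    (hth : ∀ f ∈ J, th f ∈ J) (q : Polynomial K) (hq : q ≠ 0) (hqJ : (q : K⟦X⟧) ∈ J) : ∃ d : ℕ, (X ^ d : K⟦X⟧) ∈ J := by
  obtain ⟨n, hn⟩ : ∃ n, n = q.natDegree := ⟨_, rfl⟩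
  induction n using Nat.strong_induction_on generalizing q with
  | _ n ih =>
    obtain ⟨r, hr⟩ : ∃ r, r = Polynomial.X * Polynomial.derivative q - (n : Polynomial K) * q := ⟨_, rfl⟩
    have hrJ : (r : K⟦X⟧) ∈ J := by
      rw [hr, Polynomial.coe_sub, ← th_coe, Polynomial.coe_mul]
      exact hsub _ (hth _ hqJ) _ (hmul _ _ hqJ)
    have hrc : ∀ k, r.coeff k = ((k : K) - n) * q.coeff k := by
      intro k
      rw [hr, Polynomial.coeff_sub, show ((n : Polynomial K)) = Polynomial.C (n : K) by simp, Polynomial.coeff_C_mul]
      cases k with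
      | zero => simp
      | succ k => rw [Polynomial.coeff_X_mul, Polynomial.coeff_derivative]; push_cast; ring
    by_cases hr0 : r = 0
    · refine ⟨n, ?_⟩
      have h1 : q = Polynomial.C q.leadingCoeff * Polynomial.X ^ n := by
        ext k
        rw [Polynomial.coeff_C_mul, Polynomial.coeff_X_pow]
        split_ifs with h
        · rw [mul_one, h, hn]; rfl
        · rw [mul_zero]
          have h2 := hrc k
          rw [hr0, Polynomial.coeff_zero] at h2
          rcases mul_eq_zero.1 h2.symm with h3 | h3
          · exfalso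
            apply h
            have : (k : K) = n := by linear_combination h3
            exact_mod_cast this
          · exact h3
      have h2 := hmul (Polynomial.C q.leadingCoeff⁻¹) _ hqJ
      rw [h1] at h2
      have h3 : q.leadingCoeff ≠ 0 := Polynomial.leadingCoeff_ne_zero.2 hq
      rw [Polynomial.coe_mul, Polynomial.coe_C, Polynomial.coe_pow, Polynomial.coe_X, ← mul_assoc, Polynomial.coe_C,
        ← map_mul] at h2
      have h4 : (Polynomial.C q.leadingCoeff * Polynomial.X ^ n : Polynomial K).leadingCoeff = q.leadingCoeff := by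
        rw [← h1]
      rw [h4, inv_mul_cancel₀ h3, map_one, one_mul] at h2
      exact h2
    · have hlt : r.natDegree < n := by
        have h1 : r.natDegree ≤ n := by
          rw [Polynomial.natDegree_le_iff_coeff_eq_zero]
          intro k hk
          rw [hrc, Polynomial.coeff_eq_zero_of_natDegree_lt (by omega), mul_zero]
        have h2 : r.natDegree ≠ n := by
          intro h
          have h3 := hrc n
          rw [sub_self, zero_mul, ← h] at h3
          exact hr0 (Polynomial.leadingCoeff_eq_zero.1 h3)
        omega
      exact ih _ hlt r hr0 hrJ rfl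

/-- the equation for the coefficients -/
lemma eq_coeff {a c : K} {d : ℕ} {p : Polynomial K}
    (h : dl a p = (d : Polynomial K) * p + Polynomial.C c * Polynomial.X ^ d) :
    (a ≠ 0 → p = 0) ∧ (a = 0 → ∃ k : K, p = Polynomial.C k * Polynomial.X ^ d) := by
  have hc : ∀ n : ℕ, ((n : K) - d) * p.coeff n + a * (if n = 0 then 0 else p.coeff (n - 1)) = if n = d then c else 0 := by
    intro n
    have h1 := congrArg (fun r => Polynomial.coeff r n) h
    simp only [dl, mul_assoc, Polynomial.coeff_add, Polynomial.coeff_C_mul, Polynomial.coeff_X_pow,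
      show ((d : Polynomial K)) = Polynomial.C (d : K) by simp] at h1
    cases n with
    | zero =>
      simp only [Polynomial.mul_coeff_zero, Polynomial.coeff_X_zero, zero_mul, mul_zero, zero_add] at h1
      simp only [Nat.cast_zero, zero_sub, if_true, mul_zero, add_zero]
      split_ifs at h1 ⊢ <;> linear_combination h1
    | succ n =>
      rw [Polynomial.coeff_X_mul, Polynomial.coeff_X_mul, Polynomial.coeff_derivative] at h1
      rw [if_neg (Nat.succ_ne_zero n), Nat.add_sub_cancel]
      push_cast
      split_ifs at h1 ⊢ <;> linear_combination h1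
  constructor
  · intro ha
    by_contra hp
    have hlow : ∀ n, n < d → p.coeff n = 0 := by
      intro n
      induction n with
      | zero =>
        intro hn
        have h1 := hc 0
        rw [if_pos rfl, mul_zero, add_zero, if_neg (by omega)] at h1
        rcases mul_eq_zero.1 h1 with h2 | h2
        · exfalso
          have : ((0 : ℕ) : K) = d := by linear_combination h2
          have : 0 = d := by exact_mod_cast this
          omega
        · exact h2
      | succ n ih =>
        intro hn
        have h1 := hc (n + 1)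
        rw [if_neg (Nat.succ_ne_zero n), Nat.add_sub_cancel, ih (by omega), mul_zero, add_zero, if_neg (by omega)] at h1
        rcases mul_eq_zero.1 h1 with h2 | h2
        · exfalso
          have : ((n + 1 : ℕ) : K) = d := by linear_combination h2
          have : n + 1 = d := by exact_mod_cast this
          omega
        · exact h2
    have hN : p.coeff p.natDegree ≠ 0 := by
      intro h0
      exact hp (Polynomial.leadingCoeff_eq_zero.1 h0)
    have h1 := hc (p.natDegree + 1)
    rw [if_neg (Nat.succ_ne_zero _), Nat.add_sub_cancel, Polynomial.coeff_eq_zero_of_natDegree_lt (Nat.lt_succ_self _),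
      mul_zero, zero_add] at h1
    by_cases hd : p.natDegree + 1 = d
    · exact hN (hlow _ (by omega))
    · rw [if_neg hd] at h1
      rcases mul_eq_zero.1 h1 with h2 | h2
      · exact ha h2
      · exact hN h2
  · intro ha
    refine ⟨p.coeff d, ?_⟩
    ext n
    rw [Polynomial.coeff_C_mul, Polynomial.coeff_X_pow]
    split_ifs with hn
    · rw [hn, mul_one]
    · rw [mul_zero]
      have h1 := hc n
      rw [ha, zero_mul, add_zero, if_neg hn] at h1
      rcases mul_eq_zero.1 h1 with h2 | h2
      · exfalso
        apply hn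
        have : (n : K) = d := by linear_combination h2
        exact_mod_cast this
      · exact h2

end Pool.Agent.V7H81.LW
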