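import Pool.Agent.V7H81.LW.VS

/-!
# The values of the functions in the spaces, for a Galois number field
-/

set_option autoImplicit false
set_option linter.unusedSectionVars false

open PowerSeries

namespace Pool.Agent.V7H81.LW

open Pool.Agent.R352.E (ESys EF TQ E_lin cf)
open Pool.Agent.Y113 (ev ps)

lemma ps_lin (a b : ℤ) : ps (Polynomial.C a + Polynomial.C b * Polynomial.X) = C (a : ℚ) + C (b : ℚ) * X := by
  rw [ps, Polynomial.map_add, Polynomial.map_mul, Polynomial.map_C, Polynomial.map_C, Polynomial.map_X,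
    Polynomial.coe_add, Polynomial.coe_mul, Polynomial.coe_C, Polynomial.coe_C, Polynomial.coe_X]
  rfl

/-! ### linear independence over the polynomials -/

section general

variable {K : Type} [Field K] [CharZero K]

/-- the sum of the monomials with polynomial coefficients -/
noncomputable def FF : ((K × ((ℕ × Kˣ) →₀ ℕ)) →₀ Polynomial K) →+ K⟦X⟧ :=
  Finsupp.liftAddHom fun p => (AddMonoidHom.mulRight (mm p)).comp
    (Polynomial.coeToPowerSeries.ringHom (R := K)).toAddMonoidHom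

lemma FF_apply (c : (K × ((ℕ × Kˣ) →₀ ℕ)) →₀ Polynomial K) : FF c = c.sum fun p q => (q : K⟦X⟧) * mm p := rfl

lemma FF_mapRange (b : (K × ((ℕ × Kˣ) →₀ ℕ)) →₀ K) (r : Polynomial K) :
    FF (b.mapRange (fun x => Polynomial.C x * r) (by simp)) = (r : K⟦X⟧) * b.sum fun p x => x • mm p := by
  classical
  induction b using Finsupp.induction_linear with
  | zero => simp
  | add b c hb hc =>
    rw [Finsupp.mapRange_add (by intro x y; simp [add_mul]), map_add, hb, hc, Finsupp.sum_add_index', mul_add]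
    · intro p; rw [zero_smul]
    · intro p x y; rw [add_smul]
  | single p x =>
    rw [Finsupp.mapRange_single, FF_apply, Finsupp.sum_single_index (by simp), Finsupp.sum_single_index (by simp),
      Polynomial.coe_mul, Polynomial.coe_C, smul_eq]
    ring

end general

variable {L : Type} [Field L] [NumberField L]

lemma map_inj_L {f : ℚ⟦X⟧} (h : PowerSeries.map (algebraMap ℚ L) f = 0) : f = 0 := by
  ext n
  have h1 := congrArg (coeff n) h
  rw [coeff_map, map_zero] at h1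
  rw [map_zero]
  exact (_root_.map_eq_zero _).1 h1

theorem LI_poly {N : ℕ} (y : Fin N → ℚ⟦X⟧) (hLI : LinearIndependent ℚ y)
    (hmm : ∀ i, PowerSeries.map (algebraMap ℚ L) (y i) ∈ MM L) : LinearIndependent (Polynomial ℚ) y := by
  classical
  rw [Fintype.linearIndependent_iff] at hLI ⊢
  intro q hq
  have hb : ∀ i, ∃ b : (L × ((ℕ × Lˣ) →₀ ℕ)) →₀ L, (b.sum fun p x => x • mm p) = PowerSeries.map (algebraMap ℚ L) (y i) :=
    fun i => Finsupp.mem_span_range_iff_exists_finsupp.1 (hmm i)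
  choose b hb using hb
  set r : Fin N → Polynomial L := fun i => (q i).map (algebraMap ℚ L) with hr
  have h0 : FF (∑ i, (b i).mapRange (fun x => Polynomial.C x * r i) (by simp)) = 0 := by
    rw [map_sum]
    have h1 : ∀ i, FF ((b i).mapRange (fun x => Polynomial.C x * r i) (by simp)) =
        PowerSeries.map (algebraMap ℚ L) (q i • y i) := by
      intro i
      rw [FF_mapRange, hb, hr]
      have h2 : q i • y i = ((q i : Polynomial ℚ) : ℚ⟦X⟧) * y i := rfl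
      rw [h2, map_mul, Polynomial.polynomial_map_coe]
    rw [Finset.sum_congr rfl fun i _ => h1 i, ← map_sum, hq, map_zero]
  rw [FF_apply] at h0
  have h1 := mm_LI _ h0
  have h2 : ∀ (p : L × ((ℕ × Lˣ) →₀ ℕ)) (k : ℕ), ∑ i, b i p * algebraMap ℚ L ((q i).coeff k) = 0 := by
    intro p k
    have h3 := congrArg (fun P : Polynomial L => P.coeff k) (DFunLike.congr_fun h1 p)
    simp only [Finsupp.coe_finsetSum, Finset.sum_apply, Finsupp.mapRange_apply, Polynomial.finsetSum_coeff,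
      Polynomial.coeff_C_mul, Finsupp.coe_zero, Pi.zero_apply, Polynomial.coeff_zero, hr, Polynomial.coeff_map] at h3
    exact h3
  intro i
  ext k
  rw [Polynomial.coeff_zero]
  refine hLI (fun i => (q i).coeff k) ?_ i
  apply map_inj_L (L := L)
  rw [map_sum]
  have h4 : ∀ i, PowerSeries.map (algebraMap ℚ L) ((q i).coeff k • y i) =
      (b i).sum fun p x => (x * algebraMap ℚ L ((q i).coeff k)) • mm p := by
    intro i
    have h5 : PowerSeries.map (algebraMap ℚ L) ((q i).coeff k • y i) =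
        algebraMap ℚ L ((q i).coeff k) • PowerSeries.map (algebraMap ℚ L) (y i) := by
      ext n
      have e1 : coeff n ((q i).coeff k • y i) = (q i).coeff k * coeff n (y i) := rfl
      have e2 : coeff n (algebraMap ℚ L ((q i).coeff k) • PowerSeries.map (algebraMap ℚ L) (y i)) =
        algebraMap ℚ L ((q i).coeff k) * coeff n (PowerSeries.map (algebraMap ℚ L) (y i)) := rfl
      rw [coeff_map, e1, e2, coeff_map, map_mul]
    rw [h5, ← hb, Finsupp.smul_sum]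
    refine Finsupp.sum_congr fun p _ => ?_
    rw [smul_smul, mul_comm]
  rw [Finset.sum_congr rfl fun i _ => h4 i]
  obtain ⟨S, hS⟩ : ∃ S : Finset (L × ((ℕ × Lˣ) →₀ ℕ)), ∀ i, (b i).support ⊆ S :=
    ⟨Finset.univ.biUnion fun i => (b i).support, fun i => Finset.subset_biUnion_of_mem (fun i => (b i).support)
      (Finset.mem_univ i)⟩
  have h6 : ∀ i, ((b i).sum fun p x => (x * algebraMap ℚ L ((q i).coeff k)) • mm p) =
      ∑ p ∈ S, (b i p * algebraMap ℚ L ((q i).coeff k)) • mm p := by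
    intro i
    refine Finsupp.sum_of_support_subset _ (hS i) _ fun p _ => ?_
    rw [zero_mul, zero_smul]
  rw [Finset.sum_congr rfl fun i _ => h6 i, Finset.sum_comm]
  refine Finset.sum_eq_zero fun p _ => ?_
  rw [← Finset.sum_smul, h2, zero_smul]

/-! ### a basis -/

lemma exists_basis_one (W : Submodule ℚ ℚ⟦X⟧) (hW : W.FG) (h1 : (1 : ℚ⟦X⟧) ∈ W) :
    ∃ (N : ℕ) (y : Fin N → ℚ⟦X⟧) (i₀ : Fin N), y i₀ = 1 ∧ LinearIndependent ℚ y ∧ Submodule.span ℚ (Set.range y) = W := by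
  classical
  have hs : LinearIndepOn ℚ id ({1} : Set ℚ⟦X⟧) := LinearIndepOn.singleton (v := id) (by simp)
  obtain ⟨b, hbW, h1b, hWb, hb⟩ := exists_linearIndepOn_id_extension hs
    (show ({1} : Set ℚ⟦X⟧) ⊆ (W : Set ℚ⟦X⟧) from Set.singleton_subset_iff.2 h1)
  have : Module.Finite ℚ W := Module.Finite.iff_fg.2 hW
  have hfin : b.Finite := by
    have h2 : LinearIndependent ℚ (fun x : b => (⟨x.1, hbW x.2⟩ : W)) := by
      refine LinearIndependent.of_comp W.subtype ?_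
      exact hb
    exact h2.finite
  have : Fintype b := hfin.fintype
  obtain ⟨e⟩ : Nonempty (Fin (Fintype.card b) ≃ b) := ⟨(Fintype.equivFin b).symm⟩
  refine ⟨Fintype.card b, fun i => (e i : ℚ⟦X⟧), e.symm ⟨1, h1b (Set.mem_singleton _)⟩, ?_, ?_, ?_⟩
  · show ((e (e.symm ⟨1, h1b (Set.mem_singleton _)⟩) : b) : ℚ⟦X⟧) = 1
    rw [Equiv.apply_symm_apply]
  · exact hb.comp e e.injective
  · have h3 : Set.range (fun i => (e i : ℚ⟦X⟧)) = b := by
      ext x
      constructor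
      · rintro ⟨i, rfl⟩
        exact (e i).2
      · intro hx
        exact ⟨e.symm ⟨x, hx⟩, by simp⟩
    rw [h3]
    exact le_antisymm (Submodule.span_le.2 hbW) hWb

lemma int_mul (a : ℚ) (q : ℕ) (h : a.den ∣ q) : ∃ z : ℤ, (z : ℚ) = q * a := by
  obtain ⟨c, rfl⟩ := h
  refine ⟨a.num * c, ?_⟩
  have h1 : (a.num : ℚ) / a.den = a := Rat.num_div_den a
  have h2 : (a.den : ℚ) ≠ 0 := by exact_mod_cast a.den_ne_zero
  have h3 : (a.num : ℚ) = a * a.den := (div_eq_iff h2).1 h1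
  push_cast
  rw [h3]; ring

/-- the differential system -/
lemma exists_der {N : ℕ} (y : Fin N → ℚ⟦X⟧)
    (h : ∀ i, ∃ w0 ∈ Submodule.span ℚ (Set.range y), ∃ w1 ∈ Submodule.span ℚ (Set.range y), th (y i) = w0 + X * w1) :
    ∃ q : ℕ, 1 ≤ q ∧ ∃ B : Fin N → Fin N → Polynomial ℤ, ∀ i, (TQ q : ℚ⟦X⟧) * d⁄dX ℚ (y i) = ∑ j, ps (B i j) * y j := by
  classical
  have h' : ∀ i, ∃ a b : Fin N → ℚ, th (y i) = ∑ j, a j • y j + X * ∑ j, b j • y j := by
    intro i
    obtain ⟨w0, hw0, w1, hw1, e⟩ := h i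
    obtain ⟨a, ha⟩ := (Submodule.mem_span_range_iff_exists_fun ℚ).1 hw0
    obtain ⟨b, hb⟩ := (Submodule.mem_span_range_iff_exists_fun ℚ).1 hw1
    exact ⟨a, b, by rw [ha, hb, e]⟩
  choose a b hab using h'
  obtain ⟨q, hq⟩ : ∃ q : ℕ, q = ∏ i, ∏ j, (a i j).den * (b i j).den := ⟨_, rfl⟩
  have hq1 : 1 ≤ q := by
    rw [hq]
    exact Finset.prod_pos fun i _ => Finset.prod_pos fun j _ => Nat.mul_pos (a i j).den_pos (b i j).den_pos
  have hdv : ∀ i j, (a i j).den * (b i j).den ∣ q := by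
    intro i j
    rw [hq]
    exact (Finset.dvd_prod_of_mem _ (Finset.mem_univ j)).trans
      (Finset.dvd_prod_of_mem (fun i => ∏ j, (a i j).den * (b i j).den) (Finset.mem_univ i))
  choose A hA using fun i j => int_mul (a i j) q ((Dvd.intro _ rfl).trans (hdv i j))
  choose B hB using fun i j => int_mul (b i j) q ((Dvd.intro_left _ rfl).trans (hdv i j))
  refine ⟨q, hq1, fun i j => Polynomial.C (A i j) + Polynomial.C (B i j) * Polynomial.X, fun i => ?_⟩
  have h1 : (TQ q : ℚ⟦X⟧) * d⁄dX ℚ (y i) = C (q : ℚ) * th (y i) := by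
    rw [TQ, Polynomial.coe_mul, Polynomial.coe_C, Polynomial.coe_X, th_apply, mul_assoc]
  rw [h1, hab, mul_add, Finset.mul_sum, mul_left_comm, Finset.mul_sum, Finset.mul_sum, ← Finset.sum_add_distrib]
  refine Finset.sum_congr rfl fun j _ => ?_
  rw [ps_lin, hA, hB, smul_eq, smul_eq, map_mul, map_mul]
  ring


/-! ### the traces -/

/-- the space of the traces -/
noncomputable def WW (V : Submodule L L⟦X⟧) : Submodule ℚ ℚ⟦X⟧ := (V.restrictScalars ℚ).map trc

lemma mem_WW {V : Submodule L L⟦X⟧} {g : ℚ⟦X⟧} : g ∈ WW V ↔ ∃ v ∈ V, trc v = g := by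
  rw [WW, Submodule.mem_map]
  rfl

lemma WW_fg {V : Submodule L L⟦X⟧} (hV : V.FG) : (WW V).FG := (Submodule.FG.restrictScalars hV).map _

lemma trc_C (c : L) : trc (PowerSeries.C c) = C (Algebra.trace ℚ L c) := by
  ext n
  rw [coeff_trc, coeff_C, coeff_C]
  split_ifs
  · rfl
  · rw [map_zero]

lemma WW_one {V : Submodule L L⟦X⟧} (hV : (1 : L⟦X⟧) ∈ V) : (1 : ℚ⟦X⟧) ∈ WW V := by
  have hn : ((Module.finrank ℚ L : ℕ) : ℚ) ≠ 0 := by
    exact_mod_cast (Module.finrank_pos (R := ℚ) (M := L)).ne'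
  refine mem_WW.2 ⟨(algebraMap ℚ L (1 / Module.finrank ℚ L)) • (1 : L⟦X⟧), Submodule.smul_mem _ _ hV, ?_⟩
  rw [smul_eq, mul_one, trc_C, Algebra.trace_algebraMap, nsmul_eq_mul, mul_one_div_cancel hn, map_one]

lemma WW_der {V : Submodule L L⟦X⟧} (hV : VS V) {g : ℚ⟦X⟧} (hg : g ∈ WW V) :
    ∃ w0 ∈ WW V, ∃ w1 ∈ WW V, th g = w0 + X * w1 := by
  obtain ⟨v, hv, rfl⟩ := mem_WW.1 hg
  obtain ⟨v0, hv0, v1, hv1, h⟩ := hV.der v hv
  refine ⟨trc v0, mem_WW.2 ⟨v0, hv0, rfl⟩, trc v1, mem_WW.2 ⟨v1, hv1, rfl⟩, ?_⟩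
  rw [trc_th, h, map_add, trc_X]

lemma cf_trc (m : ℕ) (v : L⟦X⟧) : cf m (trc v) = Algebra.trace ℚ L (cl m v) := by
  rw [cf, coeff_trc, cl]
  have : (m.factorial : L) * coeff m v = (m.factorial : ℚ) • coeff m v := by
    rw [Algebra.smul_def]; simp
  rw [this, map_smul, smul_eq_mul]

lemma EF_trc {v : L⟦X⟧} (hv : ∀ io : L →+* ℂ, EL io v) : EF (trc v) := by
  classical
  choose D hD1 hDs hDd using fun io : L →ₐ[ℚ] ℂ => hv (io : L →+* ℂ)
  have hle : ∀ i, D i ≤ ∏ i, D i := by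
    intro i
    rw [← Finset.mul_prod_erase Finset.univ D (Finset.mem_univ i)]
    refine le_mul_of_one_le_right (by linarith [hD1 i]) ?_
    exact Finset.prod_induction _ (fun x : ℝ => 1 ≤ x) (fun a b ha hb => one_le_mul_of_one_le_of_one_le ha hb) le_rfl
      fun j _ => hD1 j
  have hone : 1 ≤ ∏ i, D i :=
    Finset.prod_induction _ (fun x : ℝ => 1 ≤ x) (fun a b ha hb => one_le_mul_of_one_le_of_one_le ha hb) le_rfl
      fun j _ => hD1 j
  set n : ℝ := (Fintype.card (L →ₐ[ℚ] ℂ) : ℝ) with hn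
  have hcard : 0 < Fintype.card (L →ₐ[ℚ] ℂ) := by
    rw [AlgHom.card ℚ L ℂ]
    exact Module.finrank_pos
  have hn1 : 1 ≤ n := by rw [hn]; exact_mod_cast hcard
  obtain ⟨io⟩ : Nonempty (L →ₐ[ℚ] ℂ) := Fintype.card_pos_iff.1 hcard
  refine ⟨n * ∏ i, D i, one_le_mul_of_one_le_of_one_le hn1 hone, fun m => ?_, fun m => ?_⟩
  · have h1 : ((cf m (trc v) : ℚ) : ℂ) = ∑ σ : L →ₐ[ℚ] ℂ, σ (cl m v) := by
      rw [cf_trc, ← trace_eq_sum_embeddings ℂ (K := ℚ)]
      rfl
    have h2 : |((cf m (trc v) : ℚ) : ℝ)| = ‖((cf m (trc v) : ℚ) : ℂ)‖ := by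
      rw [Complex.norm_ratCast]
    rw [h2, h1]
    refine (norm_sum_le _ _).trans ?_
    calc ∑ σ : L →ₐ[ℚ] ℂ, ‖σ (cl m v)‖ ≤ ∑ σ : L →ₐ[ℚ] ℂ, (∏ i, D i) ^ (m + 1) := by
          refine Finset.sum_le_sum fun σ _ => ?_
          exact (hDs σ m).trans (pow_le_pow_left₀ (by linarith [hD1 σ]) (hle σ) _)
      _ = n * (∏ i, D i) ^ (m + 1) := by
          rw [Finset.sum_const, Finset.card_univ, nsmul_eq_mul]
      _ ≤ n ^ (m + 1) * (∏ i, D i) ^ (m + 1) :=
          mul_le_mul_of_nonneg_right (le_self_pow₀ hn1 (by omega)) (by positivity)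
      _ = _ := by rw [mul_pow]
  · obtain ⟨d, hd, hdC, hdi⟩ := hDd io m
    refine ⟨d, hd, ?_, fun j hj => ?_⟩
    · refine hdC.trans (pow_le_pow_left₀ (by linarith [hD1 io]) ?_ _)
      exact (hle io).trans (le_mul_of_one_le_left (by linarith) hn1)
    · have h1 : IsIntegral ℤ (Algebra.trace ℚ L ((d : L) * cl j v)) := Algebra.isIntegral_trace (hdi j hj)
      obtain ⟨z, hz⟩ := IsIntegrallyClosed.isIntegral_iff.1 h1
      refine ⟨z, ?_⟩
      rw [cf_trc]
      have h2 : (d : L) * cl j v = (d : ℚ) • cl j v := by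
        rw [Algebra.smul_def]; simp
      rw [h2, map_smul, smul_eq_mul] at hz
      rw [← hz]
      simp

lemma WW_mm [IsGalois ℚ L] {V : Submodule L L⟦X⟧} (hV : VS V) {g : ℚ⟦X⟧} (hg : g ∈ WW V) :
    PowerSeries.map (algebraMap ℚ L) g ∈ MM L := by
  obtain ⟨v, hv, rfl⟩ := mem_WW.1 hg
  rw [map_trc]
  exact Submodule.sum_mem _ fun σ _ => MM_map _ (hV.mm hv)

/-- a system of E-functions -/
theorem exists_sys [IsGalois ℚ L] {V : Submodule L L⟦X⟧} (hV : VS V) :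
    ∃ (N : ℕ) (y : Fin N → ℚ⟦X⟧) (i₀ : Fin N) (q : ℕ) (C : ℝ), y i₀ = 1 ∧ Submodule.span ℚ (Set.range y) = WW V ∧
      (∀ i, EF (y i)) ∧ ESys q C y ∧ LinearIndependent ℚ y ∧ LinearIndependent (Polynomial ℚ) y := by
  obtain ⟨N, y, i₀, h1, hLI, hspan⟩ := exists_basis_one (WW V) (WW_fg hV.fg) (WW_one hV.one)
  have hmem : ∀ i, y i ∈ WW V := fun i => by rw [← hspan]; exact Submodule.subset_span ⟨i, rfl⟩
  have hEF : ∀ i, EF (y i) := by
    intro i
    obtain ⟨v, hv, hvy⟩ := mem_WW.1 (hmem i)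
    rw [← hvy]
    exact EF_trc fun io => hV.el io v hv
  obtain ⟨C, hC1, hCs, hCd⟩ := EF.common hEF
  obtain ⟨q, hq1, hder⟩ := exists_der y (fun i => by rw [hspan]; exact WW_der hV (hmem i))
  exact ⟨N, y, i₀, q, C, h1, hspan, hEF, ⟨hC1, hq1, hCs, hCd, hder⟩, hLI,
    LI_poly (L := L) y hLI fun i => WW_mm hV (hmem i)⟩

lemma ev_lin {N : ℕ} {y : Fin N → ℚ⟦X⟧} (hEF : ∀ i, EF (y i)) (a : Fin N → ℚ) :
    ev 1 (∑ i, a i • y i) = ∑ i, (a i : ℝ) * ev 1 (y i) := by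
  have h1 : ∀ i, a i • y i = C (a i) * y i := fun i => smul_eq _ _
  rw [Finset.sum_congr rfl fun i _ => h1 i, Pool.Agent.Y113.Cv.ev_sum one_pos]
  · refine Finset.sum_congr rfl fun i _ => ?_
    rw [Pool.Agent.Y113.Cv.ev_mul one_pos (Pool.Agent.Y113.Cv.C _) (hEF i).cv, Pool.Agent.Y113.ev_C]
  · intro i _
    exact (Pool.Agent.Y113.Cv.C _).mul one_pos (hEF i).cv

theorem ev_ne [IsGalois ℚ L] {V : Submodule L L⟦X⟧} (hV : VS V) {g : ℚ⟦X⟧} (hg : g ∈ WW V) (hg0 : g ≠ 0) :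
    ev 1 g ≠ 0 := by
  obtain ⟨N, y, i₀, q, C, h1, hspan, hEF, hE, -, hLI⟩ := exists_sys hV
  have hlin := E_lin hE i₀ h1 hLI
  rw [← hspan] at hg
  obtain ⟨a, rfl⟩ := (Submodule.mem_span_range_iff_exists_fun ℚ).1 hg
  intro h0
  rw [ev_lin hEF] at h0
  rw [Fintype.linearIndependent_iff] at hlin
  have h2 := hlin a (by
    rw [← h0]
    exact Finset.sum_congr rfl fun i _ => by rw [Rat.smul_def])
  apply hg0
  exact Finset.sum_eq_zero fun i _ => by rw [h2 i, zero_smul]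

lemma evc_map (io : L →+* ℂ) (g : ℚ⟦X⟧) : evc io (PowerSeries.map (algebraMap ℚ L) g) = ((ev 1 g : ℝ) : ℂ) := by
  rw [evc, ev, Complex.ofReal_tsum]
  refine tsum_congr fun m => ?_
  rw [coeff_map]
  have h1 : io (algebraMap ℚ L (coeff m g)) = ((coeff m g : ℚ) : ℂ) := by
    rw [← RingHom.comp_apply, eq_ratCast]
  rw [h1]
  push_cast
  simp

/-- the norm of a function -/
noncomputable def nm (f : L⟦X⟧) : L⟦X⟧ := ∏ σ : Gal(L/ℚ), PowerSeries.map (σ : L →+* L) f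

lemma nm_map (τ : Gal(L/ℚ)) (f : L⟦X⟧) : PowerSeries.map (τ : L →+* L) (nm f) = nm f := by
  rw [nm, map_prod]
  refine Fintype.prod_equiv (Equiv.mulLeft τ) _ _ fun σ => ?_
  ext n
  rw [coeff_map, coeff_map, coeff_map]
  rfl

lemma nm_trc [IsGalois ℚ L] (f : L⟦X⟧) :
    PowerSeries.map (algebraMap ℚ L) (trc (nm f)) = (Fintype.card Gal(L/ℚ) : L) • nm f := by
  rw [map_trc, Finset.sum_congr rfl fun σ _ => nm_map σ f, Finset.sum_const, Finset.card_univ, smul_eq, nsmul_eq_mul]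
  simp

lemma nm_ne {f : L⟦X⟧} (hf : f ≠ 0) : nm f ≠ 0 := by
  rw [nm, Finset.prod_ne_zero_iff]
  intro σ _ h
  apply hf
  ext n
  have h1 := congrArg (coeff n) h
  rw [coeff_map, map_zero] at h1
  rw [map_zero]
  exact (_root_.map_eq_zero _).1 h1

lemma nm_MM {f : L⟦X⟧} (hf : f ∈ MM L) : nm f ∈ MM L := by
  rw [nm]
  exact Finset.prod_induction _ (fun g => g ∈ MM L) (fun _ _ => MM_mul) MM_one fun σ _ => MM_map _ hf

/-- **Nonvanishing**: the value at `1` of a nonzero linear combination of the monomials is not zero -/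
theorem evc_ne [IsGalois ℚ L] (io : L →+* ℂ) {f : L⟦X⟧} (hf : f ∈ MM L) (hf0 : f ≠ 0) : evc io f ≠ 0 := by
  classical
  obtain ⟨V, hV, hfV⟩ := good_of_MM (nm_MM hf)
  have hcard : ((Fintype.card Gal(L/ℚ) : ℕ) : L) ≠ 0 := by
    exact_mod_cast (Fintype.card_pos (α := Gal(L/ℚ))).ne'
  have h1 : trc (nm f) ≠ 0 := by
    intro h
    have h2 := nm_trc f
    rw [h, map_zero] at h2
    rcases smul_eq_zero.1 h2.symm with h3 | h3
    · exact hcard h3
    · exact nm_ne hf0 h3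
  have h2 := ev_ne hV (mem_WW.2 ⟨_, hfV, rfl⟩) h1
  intro h0
  apply h2
  have h3 := evc_map io (trc (nm f))
  have hEL : ∀ σ : Gal(L/ℚ), EL io (PowerSeries.map (σ : L →+* L) f) := by
    intro σ
    obtain ⟨V', hV', hfV'⟩ := good_of_MM (MM_map (σ : L →+* L) hf)
    exact hV'.el io _ hfV'
  have h5 : EL io (nm f) := EL.prod _ _ fun σ _ => hEL σ
  rw [nm_trc, smul_eq, evc_mul (EL.C _).cc h5.cc, nm, evc_prod _ _ fun σ _ => hEL σ] at h3
  have h4 : ∏ σ : Gal(L/ℚ), evc io (PowerSeries.map (σ : L →+* L) f) = 0 := by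
    refine Finset.prod_eq_zero (Finset.mem_univ (1 : Gal(L/ℚ))) ?_
    rw [← h0]
    congr 1
  rw [h4, mul_zero] at h3
  exact_mod_cast h3.symm

end Pool.Agent.V7H81.LW
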