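import Pool.Agent.V7H81.LW.Exp

/-!
# Towers of primitives over the exponential polynomials: one step
-/

set_option autoImplicit false
set_option linter.unusedSectionVars false

open PowerSeries

namespace Pool.Agent.V7H81.LW

variable {K : Type} [Field K] [CharZero K]

/-- the span of the exponentials -/
noncomputable def Ex (K : Type) [Field K] [CharZero K] : Submodule K K⟦X⟧ := Submodule.span K (Set.range ex)

/-- the properties of the rings of a tower -/
structure Nice (S : Subring K⟦X⟧) (U : Submodule K K⟦X⟧) : Prop where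
  coe_mem : ∀ p : Polynomial K, (p : K⟦X⟧) ∈ S
  ex_mem : ∀ a, ex a ∈ S
  U_le : ∀ f ∈ U, f ∈ S
  th_mem : ∀ f ∈ S, th f ∈ S
  simple : ∀ J : Set K⟦X⟧, (∀ f ∈ J, f ∈ S) → (∀ f ∈ J, ∀ g ∈ J, f - g ∈ J) → (∀ a ∈ S, ∀ f ∈ J, a * f ∈ J) →
    (∀ f ∈ J, th f ∈ J) → (∃ f ∈ J, f ≠ 0) → ∃ d : ℕ, (X ^ d : K⟦X⟧) ∈ J
  prim : ∀ (d : ℕ), ∀ f ∈ S, (∃ τ ∈ Ex K ⊔ U, th f - (d : K⟦X⟧) * f = X ^ d * τ) →
    ∃ k : K, ∃ g ∈ U, f = X ^ d * (C k + g)

lemma smul_eq (c : K) (f : K⟦X⟧) : c • f = C c * f := by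
  ext n
  rw [coeff_smul, coeff_C_mul, smul_eq_mul]

section Nice

variable {S : Subring K⟦X⟧} {U : Submodule K K⟦X⟧}

lemma Nice.C_mem (h : Nice S U) (c : K) : (C c : K⟦X⟧) ∈ S := by
  have := h.coe_mem (Polynomial.C c)
  rwa [Polynomial.coe_C] at this

lemma Nice.X_mem (h : Nice S U) (d : ℕ) : (X ^ d : K⟦X⟧) ∈ S := by
  have := h.coe_mem (Polynomial.X ^ d)
  rwa [Polynomial.coe_pow, Polynomial.coe_X] at this

/-- `S` as a subspace -/
def Nice.sub (h : Nice S U) : Submodule K K⟦X⟧ where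
  carrier := S
  add_mem' := fun ha hb => S.add_mem ha hb
  zero_mem' := S.zero_mem
  smul_mem' := fun c f hf => by
    rw [smul_eq]
    exact S.mul_mem (h.C_mem c) hf

lemma Nice.T_le (h : Nice S U) : ∀ τ ∈ Ex K ⊔ U, τ ∈ S := by
  have h1 : Ex K ⊔ U ≤ h.sub := by
    refine sup_le ?_ (fun f hf => h.U_le f hf)
    rw [Ex, Submodule.span_le]
    rintro _ ⟨a, rfl⟩
    exact h.ex_mem a
  exact fun τ hτ => h1 hτ

lemma C_mem_Ex (c : K) : (C c : K⟦X⟧) ∈ Ex K := by
  have h1 : (C c : K⟦X⟧) = c • ex 0 := by rw [ex_zero, smul_eq, mul_one]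
  rw [h1]
  exact Submodule.smul_mem _ _ (Submodule.subset_span ⟨0, rfl⟩)

end Nice

/-- the coefficientwise derivation -/
noncomputable def cth (p : Polynomial K⟦X⟧) : Polynomial K⟦X⟧ :=
  ∑ k ∈ p.support, Polynomial.monomial k (th (p.coeff k))

lemma coeff_cth (p : Polynomial K⟦X⟧) (k : ℕ) : (cth p).coeff k = th (p.coeff k) := by
  rw [cth, Polynomial.finsetSum_coeff]
  simp only [Polynomial.coeff_monomial]
  rw [Finset.sum_ite_eq']
  split_ifs with h
  · rfl
  · rw [Polynomial.notMem_support_iff.1 h, map_zero]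

/-- the extension of the derivation with the derivative `w` of the variable -/
noncomputable def DD (w : K⟦X⟧) (p : Polynomial K⟦X⟧) : Polynomial K⟦X⟧ :=
  cth p + Polynomial.C w * Polynomial.derivative p

lemma coeff_DD (w : K⟦X⟧) (p : Polynomial K⟦X⟧) (k : ℕ) :
    (DD w p).coeff k = th (p.coeff k) + w * (p.coeff (k + 1) * ((k : K⟦X⟧) + 1)) := by
  rw [DD, Polynomial.coeff_add, coeff_cth, Polynomial.coeff_C_mul, Polynomial.coeff_derivative]

lemma DD_add (w : K⟦X⟧) (p q : Polynomial K⟦X⟧) : DD w (p + q) = DD w p + DD w q := by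
  ext1 k
  simp only [coeff_DD, Polynomial.coeff_add, map_add]
  ring

lemma eval_DD (u : K⟦X⟧) (p : Polynomial K⟦X⟧) : (DD (th u) p).eval u = th (p.eval u) := by
  induction p using Polynomial.induction_on' with
  | add p q hp hq => rw [DD_add, Polynomial.eval_add, Polynomial.eval_add, map_add, hp, hq]
  | monomial n a =>
    have h1 : cth (Polynomial.monomial n a) = Polynomial.monomial n (th a) := by
      ext1 k
      rw [coeff_cth, Polynomial.coeff_monomial, Polynomial.coeff_monomial]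
      split_ifs
      · rfl
      · rw [map_zero]
    rw [DD, h1, Polynomial.eval_add, Polynomial.eval_mul, Polynomial.derivative_monomial, Polynomial.eval_monomial,
      Polynomial.eval_monomial, Polynomial.eval_monomial, Polynomial.eval_C, th_mul, Derivation.leibniz_pow]
    simp only [smul_eq_mul, nsmul_eq_mul]
    ring

/-- the coefficients are in `S` -/
def InS (S : Subring K⟦X⟧) (p : Polynomial K⟦X⟧) : Prop := ∀ k, p.coeff k ∈ S

section

variable {S : Subring K⟦X⟧} {U : Submodule K K⟦X⟧}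

lemma InS.add {p q : Polynomial K⟦X⟧} (hp : InS S p) (hq : InS S q) : InS S (p + q) := fun k => by
  rw [Polynomial.coeff_add]; exact S.add_mem (hp k) (hq k)

lemma InS.sub {p q : Polynomial K⟦X⟧} (hp : InS S p) (hq : InS S q) : InS S (p - q) := fun k => by
  rw [Polynomial.coeff_sub]; exact S.sub_mem (hp k) (hq k)

lemma InS.mul {p q : Polynomial K⟦X⟧} (hp : InS S p) (hq : InS S q) : InS S (p * q) := fun k => by
  rw [Polynomial.coeff_mul]; exact S.sum_mem fun i _ => S.mul_mem (hp _) (hq _)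

lemma InS.C {a : K⟦X⟧} (ha : a ∈ S) : InS S (Polynomial.C a) := fun k => by
  rw [Polynomial.coeff_C]
  split_ifs
  · exact ha
  · exact S.zero_mem

lemma InS.X : InS S (Polynomial.X : Polynomial K⟦X⟧) := fun k => by
  rw [Polynomial.coeff_X]
  split_ifs
  · exact S.one_mem
  · exact S.zero_mem

lemma InS.DD (h : Nice S U) {w : K⟦X⟧} (hw : w ∈ S) {p : Polynomial K⟦X⟧} (hp : InS S p) : InS S (DD w p) := fun k => by
  rw [coeff_DD]
  refine S.add_mem (h.th_mem _ (hp k)) (S.mul_mem hw (S.mul_mem (hp _) (S.add_mem (natCast_mem S k) S.one_mem)))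

/-- the leading coefficients -/
lemma lead (h : Nice S U) {u : K⟦X⟧} (hw : th u ∈ S) (J : Set K⟦X⟧) (hsub : ∀ f ∈ J, ∀ g ∈ J, f - g ∈ J)
    (hmul : ∀ a ∈ S, ∀ f ∈ J, a * f ∈ J) (hth : ∀ f ∈ J, th f ∈ J) (p : Polynomial K⟦X⟧) (hp : InS S p) (hp0 : p ≠ 0)
    (hpJ : p.eval u ∈ J) (hmin : ∀ q, InS S q → q.eval u ∈ J → q ≠ 0 → p.natDegree ≤ q.natDegree) :
    ∃ (d : ℕ) (q : Polynomial K⟦X⟧), InS S q ∧ q.eval u ∈ J ∧ q.natDegree = p.natDegree ∧
      q.coeff p.natDegree = X ^ d ∧ DD (th u) q = (d : Polynomial K⟦X⟧) * q := by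
  obtain ⟨m, hm⟩ : ∃ m, m = p.natDegree := ⟨_, rfl⟩
  rw [← hm] at hmin ⊢
  obtain ⟨d, hd⟩ := h.simple {c | ∃ q, InS S q ∧ q.eval u ∈ J ∧ q.natDegree ≤ m ∧ q.coeff m = c} (by
      rintro c ⟨q, hq, -, -, rfl⟩
      exact hq m) (by
      rintro c ⟨q, hq, hqJ, hqm, rfl⟩ c' ⟨q', hq', hqJ', hqm', rfl⟩
      refine ⟨q - q', hq.sub hq', ?_, ?_, Polynomial.coeff_sub _ _ _⟩
      · rw [Polynomial.eval_sub]; exact hsub _ hqJ _ hqJ'
      · exact (Polynomial.natDegree_sub_le _ _).trans (max_le hqm hqm')) (by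
      rintro a ha c ⟨q, hq, hqJ, hqm, rfl⟩
      refine ⟨Polynomial.C a * q, (InS.C ha).mul hq, ?_, ?_, Polynomial.coeff_C_mul _⟩
      · rw [Polynomial.eval_mul, Polynomial.eval_C]; exact hmul _ ha _ hqJ
      · exact (Polynomial.natDegree_C_mul_le _ _).trans hqm) (by
      rintro c ⟨q, hq, hqJ, hqm, rfl⟩
      refine ⟨DD (th u) q, hq.DD h hw, ?_, ?_, ?_⟩
      · rw [eval_DD]; exact hth _ hqJ
      · rw [Polynomial.natDegree_le_iff_coeff_eq_zero]
        intro k hk
        rw [coeff_DD, Polynomial.coeff_eq_zero_of_natDegree_lt (by omega),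
          Polynomial.coeff_eq_zero_of_natDegree_lt (by omega), map_zero]
        ring
      · rw [coeff_DD, Polynomial.coeff_eq_zero_of_natDegree_lt (p := q) (n := m + 1) (by omega)]
        ring) ⟨p.coeff m, ⟨p, hp, hpJ, hm.ge, rfl⟩, by
      rw [hm]
      exact fun h0 => hp0 (Polynomial.leadingCoeff_eq_zero.1 h0)⟩
  obtain ⟨q, hq, hqJ, hqm, hqd⟩ := hd
  have hX : (X ^ d : K⟦X⟧) ≠ 0 := pow_ne_zero _ X_ne_zero
  have hqm' : q.natDegree = m := le_antisymm hqm (Polynomial.le_natDegree_of_ne_zero (by rw [hqd]; exact hX))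
  refine ⟨d, q, hq, hqJ, hqm', hqd, ?_⟩
  by_contra hne
  have hne' : DD (th u) q - (d : Polynomial K⟦X⟧) * q ≠ 0 := sub_ne_zero.2 hne
  have hdC : (d : Polynomial K⟦X⟧) = Polynomial.C (d : K⟦X⟧) := by simp
  have h1 := hmin (DD (th u) q - (d : Polynomial K⟦X⟧) * q) ((hq.DD h hw).sub (by
    rw [hdC]
    exact (InS.C (natCast_mem S d)).mul hq)) (by
    rw [Polynomial.eval_sub, eval_DD, Polynomial.eval_mul, hdC, Polynomial.eval_C]
    exact hsub _ (hth _ hqJ) _ (hmul _ (natCast_mem S d) _ hqJ)) hne'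
  have h2 : (DD (th u) q - (d : Polynomial K⟦X⟧) * q).coeff m = 0 := by
    rw [Polynomial.coeff_sub, coeff_DD, hdC, Polynomial.coeff_C_mul, hqd,
      Polynomial.coeff_eq_zero_of_natDegree_lt (p := q) (n := m + 1) (by omega), th_X_pow]
    ring
  have h3 : (DD (th u) q - (d : Polynomial K⟦X⟧) * q).natDegree ≤ m := by
    rw [Polynomial.natDegree_le_iff_coeff_eq_zero]
    intro k hk
    rw [Polynomial.coeff_sub, coeff_DD, hdC, Polynomial.coeff_C_mul,
      Polynomial.coeff_eq_zero_of_natDegree_lt (p := q) (n := k) (by omega),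
      Polynomial.coeff_eq_zero_of_natDegree_lt (p := q) (n := k + 1) (by omega), map_zero]
    ring
  have h4 : (DD (th u) q - (d : Polynomial K⟦X⟧) * q).natDegree = m := le_antisymm h3 h1
  rw [← h4] at h2
  exact hne' (Polynomial.leadingCoeff_eq_zero.1 h2)

/-- from a primitive of a multiple of `th u` -/
lemma mem_of_prim (h : Nice S U) {u : K⟦X⟧} {g : K⟦X⟧} (hg : g ∈ U) {m : K} (hm : m ≠ 0) {k : K}
    (h0 : g + C m * u = C k) : u ∈ S := by
  have h1 : u = C m⁻¹ * (C k - g) := by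
    rw [← h0, add_sub_cancel_left, ← mul_assoc, ← map_mul, inv_mul_cancel₀ hm, map_one, one_mul]
  rw [h1]
  exact S.mul_mem (h.C_mem _) (S.sub_mem (h.C_mem _) (h.U_le _ hg))

/-- a primitive which is not in the ring is transcendental -/
theorem trans_step (h : Nice S U) {u : K⟦X⟧} (hu : th u ∈ Ex K ⊔ U) (huS : u ∉ S) :
    ∀ p, InS S p → p.eval u = 0 → p = 0 := by
  by_contra hcon
  push Not at hcon
  have hex : ∃ n, ∃ p : Polynomial K⟦X⟧, InS S p ∧ p.eval u = 0 ∧ p ≠ 0 ∧ p.natDegree = n := by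
    obtain ⟨p, h1, h2, h3⟩ := hcon
    exact ⟨_, p, h1, h2, h3, rfl⟩
  classical
  obtain ⟨p, hp, hpe, hp0, hpn⟩ := Nat.find_spec hex
  have hmin : ∀ q : Polynomial K⟦X⟧, InS S q → q.eval u ∈ ({0} : Set K⟦X⟧) → q ≠ 0 → p.natDegree ≤ q.natDegree := by
    intro q hq hqe hq0
    rw [hpn]
    exact Nat.find_min' hex ⟨q, hq, hqe, hq0, rfl⟩
  obtain ⟨d, q, hq, hqe, hqm, hqd, hqD⟩ := lead h (h.T_le _ hu) {0} (by
      rintro f rfl g rfl; simp) (by
      rintro a - f rfl; simp) (by
      rintro f rfl; simp) p hp hp0 (by rw [hpe]; rfl) hmin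
  have hqe' : q.eval u = 0 := hqe
  have hX : (X ^ d : K⟦X⟧) ≠ 0 := pow_ne_zero _ X_ne_zero
  rcases Nat.eq_zero_or_pos p.natDegree with h0 | h0
  · rw [h0] at hqm hqd
    rw [Polynomial.eq_C_of_natDegree_eq_zero hqm, Polynomial.eval_C, hqd] at hqe'
    exact hX hqe'
  · obtain ⟨m, hm⟩ : ∃ m, p.natDegree = m + 1 := ⟨p.natDegree - 1, by omega⟩
    rw [hm] at hqm hqd
    have h1 : (DD (th u) q).coeff m = ((d : Polynomial K⟦X⟧) * q).coeff m := by rw [hqD]
    have hdC : (d : Polynomial K⟦X⟧) = Polynomial.C (d : K⟦X⟧) := by simp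
    rw [coeff_DD, hqd, hdC, Polynomial.coeff_C_mul] at h1
    obtain ⟨k, g, hg, hgq⟩ := h.prim d (q.coeff m) (hq m) ⟨(-((m : K) + 1)) • th u, Submodule.smul_mem _ _ hu, by
      rw [smul_eq]
      simp only [map_neg, map_add, map_natCast, map_one]
      linear_combination h1⟩
    have h2 : th (g + C ((m : K) + 1) * u) = 0 := by
      rw [hgq, th_mul, th_X_pow, map_add, th_C] at h1
      have h3 : X ^ d * (th g + ((m : K⟦X⟧) + 1) * th u) = 0 := by linear_combination h1
      have h4 := (mul_eq_zero.1 h3).resolve_left hX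
      rw [map_add, th_mul, th_C]
      simp only [map_add, map_natCast, map_one]
      linear_combination h4
    obtain ⟨k', hk'⟩ := const_of_th h2
    exact huS (mem_of_prim h hg (by exact_mod_cast Nat.succ_ne_zero m) hk')

/-- the ring generated by `u` -/
def Ext (S : Subring K⟦X⟧) (u : K⟦X⟧) : Subring K⟦X⟧ where
  carrier := {f | ∃ p, InS S p ∧ p.eval u = f}
  mul_mem' := by
    rintro _ _ ⟨p, hp, rfl⟩ ⟨q, hq, rfl⟩
    exact ⟨p * q, hp.mul hq, Polynomial.eval_mul⟩
  one_mem' := ⟨1, by have := InS.C (S := S) S.one_mem; rwa [Polynomial.C_1] at this, Polynomial.eval_one⟩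
  add_mem' := by
    rintro _ _ ⟨p, hp, rfl⟩ ⟨q, hq, rfl⟩
    exact ⟨p + q, hp.add hq, Polynomial.eval_add⟩
  zero_mem' := ⟨0, by have := InS.C (S := S) S.zero_mem; rwa [Polynomial.C_0] at this, Polynomial.eval_zero⟩
  neg_mem' := by
    rintro _ ⟨p, hp, rfl⟩
    refine ⟨-p, ?_, Polynomial.eval_neg _ _⟩
    intro k
    rw [Polynomial.coeff_neg]
    exact S.neg_mem (hp k)

lemma le_Ext (u : K⟦X⟧) : S ≤ Ext S u := fun f hf => ⟨Polynomial.C f, InS.C hf, Polynomial.eval_C⟩

lemma mem_Ext (u : K⟦X⟧) : u ∈ Ext S u := ⟨Polynomial.X, InS.X, Polynomial.eval_X⟩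

/-- the step of the tower -/
theorem nice_step (h : Nice S U) {u : K⟦X⟧} (hu : th u ∈ Ex K ⊔ U) (huS : u ∉ S) :
    Nice (Ext S u) (U ⊔ Submodule.span K {u}) where
  coe_mem := fun p => le_Ext u (h.coe_mem p)
  ex_mem := fun a => le_Ext u (h.ex_mem a)
  U_le := by
    intro f hf
    obtain ⟨g, hg, f', hf', rfl⟩ := Submodule.mem_sup.1 hf
    obtain ⟨c, rfl⟩ := Submodule.mem_span_singleton.1 hf'
    rw [smul_eq]
    exact (Ext S u).add_mem (le_Ext u (h.U_le g hg)) ((Ext S u).mul_mem (le_Ext u (h.C_mem c)) (mem_Ext u))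
  th_mem := by
    rintro _ ⟨p, hp, rfl⟩
    exact ⟨DD (th u) p, hp.DD h (h.T_le _ hu), eval_DD u p⟩
  simple := by
    intro J hJ hsub hmul hth hne
    have htr := trans_step h hu huS
    have hex : ∃ n, ∃ p : Polynomial K⟦X⟧, InS S p ∧ p.eval u ∈ J ∧ p ≠ 0 ∧ p.natDegree = n := by
      obtain ⟨f, hf, hf0⟩ := hne
      obtain ⟨p, hp, hpf⟩ := hJ f hf
      refine ⟨_, p, hp, hpf ▸ hf, ?_, rfl⟩
      rintro rfl
      rw [Polynomial.eval_zero] at hpf
      exact hf0 hpf.symm
    classical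
    obtain ⟨p, hp, hpe, hp0, hpn⟩ := Nat.find_spec hex
    have hmin : ∀ q : Polynomial K⟦X⟧, InS S q → q.eval u ∈ J → q ≠ 0 → p.natDegree ≤ q.natDegree := by
      intro q hq hqe hq0
      rw [hpn]
      exact Nat.find_min' hex ⟨q, hq, hqe, hq0, rfl⟩
    obtain ⟨d, q, hq, hqe, hqm, hqd, hqD⟩ := lead h (h.T_le _ hu) J hsub (fun a ha f hf => hmul a (le_Ext u ha) f hf)
      hth p hp hp0 hpe hmin
    refine ⟨d, ?_⟩
    have hX : (X ^ d : K⟦X⟧) ≠ 0 := pow_ne_zero _ X_ne_zero
    have h1 : th (q.eval u) = (d : K⟦X⟧) * q.eval u + C 0 * X ^ d := by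
      rw [← eval_DD, hqD, Polynomial.eval_mul]
      simp
    obtain ⟨-, k, hk⟩ := first_order h1
    have h2 : q - Polynomial.C (C k * X ^ d) = 0 := htr _ (hq.sub (InS.C (S.mul_mem (h.C_mem k) (h.X_mem d)))) (by
      rw [Polynomial.eval_sub, Polynomial.eval_C, hk, sub_self])
    have h3 : q = Polynomial.C (C k * X ^ d) := sub_eq_zero.1 h2
    have h4 : p.natDegree = 0 := by rw [← hqm, h3, Polynomial.natDegree_C]
    rw [h4, h3, Polynomial.coeff_C_zero] at hqd
    rw [h3, Polynomial.eval_C, hqd] at hqe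
    exact hqe
  prim := by
    rintro d _ ⟨p, hp, rfl⟩ ⟨τ, hτ, hpτ⟩
    have htr := trans_step h hu huS
    have hX : (X ^ d : K⟦X⟧) ≠ 0 := pow_ne_zero _ X_ne_zero
    have hdC : (d : Polynomial K⟦X⟧) = Polynomial.C (d : K⟦X⟧) := by simp
    -- split off the multiple of u
    obtain ⟨τ', hτ', c, hc⟩ : ∃ τ' ∈ Ex K ⊔ U, ∃ c : K, τ = τ' + C c * u := by
      rw [← sup_assoc] at hτ
      obtain ⟨g, hg, f', hf', rfl⟩ := Submodule.mem_sup.1 hτ
      obtain ⟨c, rfl⟩ := Submodule.mem_span_singleton.1 hf'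
      exact ⟨g, hg, c, by rw [smul_eq]⟩
    have hτS := h.T_le _ hτ'
    have hq0 : DD (th u) p - (d : Polynomial K⟦X⟧) * p - Polynomial.C (X ^ d * τ') -
        Polynomial.C (X ^ d * C c) * Polynomial.X = 0 := by
      refine htr _ ?_ ?_
      · rw [hdC]
        exact (((hp.DD h (h.T_le _ hu)).sub ((InS.C (natCast_mem S d)).mul hp)).sub
          (InS.C (S.mul_mem (h.X_mem d) hτS))).sub ((InS.C (S.mul_mem (h.X_mem d) (h.C_mem c))).mul InS.X)
      · simp only [Polynomial.eval_sub, eval_DD, Polynomial.eval_mul, hdC, Polynomial.eval_C, Polynomial.eval_X]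
        rw [hpτ, hc]
        ring
    have hcf : ∀ k, th (p.coeff k) - (d : K⟦X⟧) * p.coeff k = (if k = 0 then X ^ d * τ' else 0) +
        (if k = 1 then X ^ d * C c else 0) - th u * (p.coeff (k + 1) * ((k : K⟦X⟧) + 1)) := by
      intro k
      have h1 := congrArg (fun r => Polynomial.coeff r k) hq0
      simp only [Polynomial.coeff_sub, coeff_DD, hdC, Polynomial.coeff_C_mul, Polynomial.coeff_zero] at h1
      rw [Polynomial.coeff_C, Polynomial.coeff_X] at h1
      split_ifs at h1 ⊢ <;> first | omega | linear_combination h1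
    -- the degree is at most one
    have hdeg : ∀ m, p.natDegree ≤ m + 2 → p.natDegree ≤ 1 := by
      intro m
      induction m with
      | zero =>
        intro hm
        by_contra hcon
        have hm2 : p.natDegree = 2 := by omega
        have h1 := hcf 2
        rw [if_neg (by omega), if_neg (by omega), Polynomial.coeff_eq_zero_of_natDegree_lt (p := p) (n := 2 + 1) (by omega)] at h1
        obtain ⟨-, κ, hκ⟩ := first_order (f := p.coeff 2) (d := d) (c := 0) (by
          rw [map_zero, zero_mul, add_zero]; linear_combination h1)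
        have hκ0 : κ ≠ 0 := by
          rintro rfl
          rw [map_zero, zero_mul] at hκ
          have : p.coeff p.natDegree = 0 := by rw [hm2]; exact hκ
          have h0 := Polynomial.leadingCoeff_eq_zero.1 this
          rw [h0] at hm2
          simp at hm2
        have h2 := hcf 1
        rw [if_neg (by omega), if_pos rfl, show 1 + 1 = 2 from rfl, hκ] at h2
        obtain ⟨k, g, hg, hgq⟩ := h.prim d (p.coeff 1) (hp 1) ⟨C c + (-(2 * κ)) • th u,
          Submodule.add_mem _ (Submodule.mem_sup_left (C_mem_Ex c)) (Submodule.smul_mem _ _ hu), by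
          rw [smul_eq, h2]
          simp only [map_neg, map_mul, map_ofNat, Nat.cast_one]
          ring⟩
        have h3 : th (g + C (2 * κ) * u) = ((0 : ℕ) : K⟦X⟧) * (g + C (2 * κ) * u) + C c * X ^ 0 := by
          rw [hgq, th_mul, th_X_pow, map_add, th_C] at h2
          have h4 : X ^ d * (th g + C (2 * κ) * th u - C c) = 0 := by
            simp only [map_mul, map_ofNat, Nat.cast_one] at h2 ⊢
            linear_combination h2
          have h5 := (mul_eq_zero.1 h4).resolve_left hX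
          rw [map_add, th_mul, th_C]
          simp only [Nat.cast_zero, pow_zero]
          linear_combination h5
        obtain ⟨-, k', hk'⟩ := first_order h3
        rw [pow_zero, mul_one] at hk'
        exact huS (mem_of_prim h hg (mul_ne_zero two_ne_zero hκ0) hk')
      | succ m ih =>
        intro hm
        by_contra hcon
        by_cases hm' : p.natDegree ≤ m + 2
        · exact hcon (ih hm')
        have hm2 : p.natDegree = m + 3 := by omega
        have h1 := hcf (m + 3)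
        rw [if_neg (by omega), if_neg (by omega), Polynomial.coeff_eq_zero_of_natDegree_lt (p := p) (n := m + 3 + 1) (by omega)] at h1
        obtain ⟨-, κ, hκ⟩ := first_order (f := p.coeff (m + 3)) (d := d) (c := 0) (by
          rw [map_zero, zero_mul, add_zero]; linear_combination h1)
        have hκ0 : κ ≠ 0 := by
          rintro rfl
          rw [map_zero, zero_mul] at hκ
          have : p.coeff p.natDegree = 0 := by rw [hm2]; exact hκ
          have h0 := Polynomial.leadingCoeff_eq_zero.1 this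
          rw [h0] at hm2
          simp at hm2
        have h2 := hcf (m + 2)
        rw [if_neg (by omega), if_neg (by omega), show m + 2 + 1 = m + 3 from rfl, hκ] at h2
        have hm3 : ((m : K) + 3) ≠ 0 := by exact_mod_cast Nat.succ_ne_zero (m + 2)
        obtain ⟨k, g, hg, hgq⟩ := h.prim d (p.coeff (m + 2)) (hp _) ⟨(-(((m : K) + 3) * κ)) • th u,
          Submodule.smul_mem _ _ hu, by
          rw [smul_eq, h2]
          simp only [map_neg, map_mul, map_add, map_natCast, map_ofNat]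
          push_cast
          ring⟩
        have h3 : th (g + C (((m : K) + 3) * κ) * u) = 0 := by
          rw [hgq, th_mul, th_X_pow, map_add, th_C] at h2
          have h4 : X ^ d * (th g + C (((m : K) + 3) * κ) * th u) = 0 := by
            simp only [map_mul, map_add, map_natCast, map_ofNat] at h2 ⊢
            push_cast at h2
            linear_combination h2
          have h5 := (mul_eq_zero.1 h4).resolve_left hX
          rw [map_add, th_mul, th_C]
          linear_combination h5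
        obtain ⟨k', hk'⟩ := const_of_th h3
        exact huS (mem_of_prim h hg (mul_ne_zero hm3 hκ0) hk')
    have hdeg1 : p.natDegree ≤ 1 := hdeg p.natDegree (by omega)
    have hp2 : p.coeff 2 = 0 := Polynomial.coeff_eq_zero_of_natDegree_lt (by omega)
    have h1 := hcf 1
    rw [if_neg (by omega), if_pos rfl, show 1 + 1 = 2 from rfl, hp2] at h1
    obtain ⟨hc0, κ, hκ⟩ := first_order (f := p.coeff 1) (d := d) (c := c) (by linear_combination h1)
    have h0 := hcf 0
    rw [if_pos rfl, if_neg (by omega), zero_add, hκ] at h0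
    obtain ⟨k, g, hg, hgq⟩ := h.prim d (p.coeff 0) (hp 0) ⟨τ' + (-κ) • th u,
      Submodule.add_mem _ hτ' (Submodule.smul_mem _ _ hu), by
      rw [smul_eq, h0]
      simp only [map_neg, Nat.cast_zero]
      ring⟩
    refine ⟨k, g + κ • u, Submodule.add_mem _ (Submodule.mem_sup_left hg)
      (Submodule.mem_sup_right (Submodule.smul_mem _ _ (Submodule.mem_span_singleton_self u))), ?_⟩
    have hpe : p.eval u = p.coeff 0 + p.coeff 1 * u := by
      rw [Polynomial.eval_eq_sum_range' (n := 2) (by omega), Finset.sum_range_succ, Finset.sum_range_one, pow_zero,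
        mul_one, pow_one]
    rw [hpe, hgq, hκ, smul_eq]
    ring

end

end Pool.Agent.V7H81.LW
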