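import Pool.Agent.V7H81.LW.Key

/-!
# The values at algebraic points: algebraic independence over the field generated by the exponentials
-/

set_option autoImplicit false
set_option linter.unusedSectionVars false

open PowerSeries

namespace Pool.Agent.V7H81.LW

/-- the field of algebraic numbers -/
noncomputable abbrev QA : IntermediateField ℚ ℂ := algebraicClosure ℚ ℂ

lemma exists_L (T : Finset QA) : ∃ L : IntermediateField ℚ QA, FiniteDimensional ℚ L ∧ IsGalois ℚ L ∧ ∀ x ∈ T, x ∈ L := by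
  have hA : IsAlgClosure ℚ QA := algebraicClosure.isAlgClosure ℚ ℂ
  have h0 : Normal ℚ QA := IsAlgClosure.normal ℚ QA
  have h1 : IsGalois ℚ QA := ⟨⟩
  exact ⟨(FiniteGaloisIntermediateField.adjoin ℚ (T : Set QA)).toIntermediateField,
    (FiniteGaloisIntermediateField.adjoin ℚ (T : Set QA)).finiteDimensional,
    (FiniteGaloisIntermediateField.adjoin ℚ (T : Set QA)).isGalois,
    fun x hx => FiniteGaloisIntermediateField.subset_adjoin ℚ (T : Set QA) hx⟩

section hom

variable {K K' : Type} [Field K] [Field K'] [CharZero K] [CharZero K']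

/-- the map on indices induced by a homomorphism -/
noncomputable def jx (φ : K →+* K') (p : K × ((ℕ × Kˣ) →₀ ℕ)) : K' × ((ℕ × K'ˣ) →₀ ℕ) :=
  (φ p.1, p.2.mapDomain (Prod.map id (Units.map (φ : K →* K'))))

lemma jx_surj (φ : K →+* K') (p : K' × ((ℕ × K'ˣ) →₀ ℕ)) (h1 : ∃ x, φ x = p.1)
    (h2 : ∀ i ∈ p.2.support, ∃ x, φ x = (i.2 : K')) : ∃ p', jx φ p' = p := by
  obtain ⟨x, hx⟩ := h1
  have hinj : Function.Injective (Prod.map (id : ℕ → ℕ) (Units.map (φ : K →* K'))) := by
    refine Function.injective_id.prodMap ?_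
    exact Units.map_injective φ.injective
  refine ⟨(x, p.2.comapDomain _ hinj.injOn), ?_⟩
  refine Prod.ext hx ?_
  refine Finsupp.mapDomain_comapDomain _ hinj _ ?_
  intro i hi
  obtain ⟨y, hy⟩ := h2 i hi
  have hy0 : y ≠ 0 := by
    rintro rfl
    rw [map_zero] at hy
    exact i.2.ne_zero hy.symm
  refine ⟨(i.1, Units.mk0 y hy0), ?_⟩
  refine Prod.ext rfl (Units.ext ?_)
  exact hy

theorem mm_lin : LinearIndependent K (mm (K := K)) := by
  rw [linearIndependent_iff]
  intro l hl
  have h1 := mm_LI (l.mapRange Polynomial.C Polynomial.C_0) (by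
    rw [Finsupp.sum_mapRange_index (by intro p; simp)]
    rw [Finsupp.linearCombination_apply] at hl
    rw [← hl]
    refine Finsupp.sum_congr fun p _ => ?_
    rw [Polynomial.coe_C, smul_eq])
  ext p
  have h2 := DFunLike.congr_fun h1 p
  rw [Finsupp.mapRange_apply, Finsupp.zero_apply] at h2
  rw [Finsupp.zero_apply]
  exact Polynomial.C_eq_zero.1 h2

end hom

/-- the monomials in the values -/
noncomputable def cmo (a : (ℕ × QAˣ) →₀ ℕ) : ℂ := a.prod fun i n => Ec (i.1 + 1) ((i.2 : QA) : ℂ) ^ n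

/-- the monomials in the values and the exponentials -/
noncomputable def cmm (p : QA × ((ℕ × QAˣ) →₀ ℕ)) : ℂ := Complex.exp (p.1 : ℂ) * cmo p.2

lemma evc_mm {L : Type} [Field L] [NumberField L] (φ : L →+* QA) (p : L × ((ℕ × Lˣ) →₀ ℕ)) :
    evc ((algebraMap QA ℂ).comp φ) (mm p) = cmm (jx φ p) := by
  have hmo : EL ((algebraMap QA ℂ).comp φ) (mo p.2) := EL.prod _ _ fun i _ => (EL.uf _ _).pow _
  rw [mm, evc_mul (EL.ex _).cc hmo.cc, evc_ex, cmm]
  congr 1
  have hv : ∀ i, EL ((algebraMap QA ℂ).comp φ) (vf (K := L) i) := fun i => EL.uf _ _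
  rw [mo, Finsupp.prod, evc_prod _ _ fun i _ => (hv i).pow _, cmo, jx,
    Finsupp.prod_mapDomain_index (fun _ => pow_zero _) (fun _ _ _ => pow_add _ _ _), Finsupp.prod]
  refine Finset.prod_congr rfl fun i _ => ?_
  have h1 : EL ((algebraMap QA ℂ).comp φ) (vf i) := EL.uf _ _
  rw [evc_pow h1, vf, evc_uf]
  rfl

lemma cmm_LI_aux {L : Type} [Field L] [NumberField L] [IsGalois ℚ L] (φ : L →+* QA)
    (s : Finset (QA × ((ℕ × QAˣ) →₀ ℕ))) (g : QA × ((ℕ × QAˣ) →₀ ℕ) → QA) (hg : ∑ p ∈ s, g p • cmm p = 0)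
    (hx : ∀ p ∈ s, ∃ p' : L × ((ℕ × Lˣ) →₀ ℕ), jx φ p' = p) (hc : ∀ p ∈ s, ∃ x : L, φ x = g p) : ∀ p ∈ s, g p = 0 := by
  classical
  choose! p' hp' using hx
  choose! x hx using hc
  have hf : ∑ p ∈ s, x p • mm (p' p) ∈ MM L :=
    Submodule.sum_mem _ fun p _ => Submodule.smul_mem _ _ (Submodule.subset_span ⟨_, rfl⟩)
  have hEL : ∀ p, EL ((algebraMap QA ℂ).comp φ) (mm (p' p)) := fun p => by
    have h1 : mm (p' p) ∈ MM L := Submodule.subset_span ⟨_, rfl⟩
    obtain ⟨V, hV, h⟩ := good_of_MM h1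
    exact hV.el _ _ h
  have hev : evc ((algebraMap QA ℂ).comp φ) (∑ p ∈ s, x p • mm (p' p)) = 0 := by
    rw [evc_sum _ _ fun p _ => (hEL p).smul _, ← hg]
    refine Finset.sum_congr rfl fun p hp => ?_
    rw [smul_eq, evc_mul (EL.C _).cc (hEL p).cc, evc_C, evc_mm, hp' p hp, RingHom.comp_apply, hx p hp, Algebra.smul_def]
  have hf0 : ∑ p ∈ s, x p • mm (p' p) = 0 := by
    by_contra h
    exact evc_ne _ hf h hev
  have hinj : Function.Injective (fun p : {p // p ∈ s} => p' p) := by
    intro p q hpq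
    have h1 := hp' p p.2
    have h2 := hp' q q.2
    simp only at hpq
    rw [hpq, h2] at h1
    exact Subtype.ext h1.symm
  have h3 := (mm_lin (K := L)).comp _ hinj
  rw [Fintype.linearIndependent_iff] at h3
  intro p hp
  have h4 := h3 (fun p => x p) (by
    rw [← hf0]
    exact Finset.sum_coe_sort s (fun p => x p • mm (p' p))) ⟨p, hp⟩
  rw [← hx p hp]
  simp only at h4
  rw [h4, map_zero]

theorem cmm_LI : LinearIndependent QA cmm := by
  classical
  rw [linearIndependent_iff']
  intro s g hg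
  obtain ⟨T, hT⟩ : ∃ T : Finset QA, T = s.image g ∪ s.image Prod.fst ∪
    s.biUnion fun p => p.2.support.image fun i => (i.2 : QA) := ⟨_, rfl⟩
  obtain ⟨L, hfin, hgal, hTL⟩ := exists_L T
  have : NumberField L := { to_charZero := inferInstance, to_finiteDimensional := hfin }
  refine cmm_LI_aux (algebraMap L QA) s g hg (fun p hp => ?_) (fun p hp => ?_)
  · refine jx_surj _ p ⟨⟨p.1, hTL _ ?_⟩, rfl⟩ fun i hi => ⟨⟨i.2, hTL _ ?_⟩, rfl⟩
    · rw [hT]
      exact Finset.mem_union_left _ (Finset.mem_union_right _ (Finset.mem_image_of_mem _ hp))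
    · rw [hT]
      exact Finset.mem_union_right _ (Finset.mem_biUnion.2 ⟨p, hp, Finset.mem_image_of_mem (fun i : ℕ × QAˣ => (i.2 : QA)) hi⟩)
  · refine ⟨⟨g p, hTL _ ?_⟩, rfl⟩
    rw [hT]
    exact Finset.mem_union_left _ (Finset.mem_union_left _ (Finset.mem_image_of_mem _ hp))

/-- the ring generated by the exponentials over the algebraic numbers -/
noncomputable abbrev BB : Subalgebra QA ℂ := Algebra.adjoin QA (Set.range fun z : QA => Complex.exp (z : ℂ))

lemma BB_span : Subalgebra.toSubmodule BB = Submodule.span QA (Set.range fun z : QA => Complex.exp (z : ℂ)) := by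
  rw [Algebra.adjoin_eq_span]
  congr 1
  obtain ⟨M, hM⟩ : ∃ M : Submonoid ℂ, (M : Set ℂ) = Set.range fun z : QA => Complex.exp (z : ℂ) := by
    refine ⟨{ carrier := Set.range fun z : QA => Complex.exp (z : ℂ), mul_mem' := ?_, one_mem' := ?_ }, rfl⟩
    · rintro _ _ ⟨a, rfl⟩ ⟨b, rfl⟩
      exact ⟨a + b, by simp [Complex.exp_add]⟩
    · exact ⟨0, by simp⟩
  rw [← hM, Submonoid.closure_eq]

/-- the values `E_(l+1)(z)` -/
noncomputable def cv (i : ℕ × QAˣ) : ℂ := Ec (i.1 + 1) ((i.2 : QA) : ℂ)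

theorem AI_BB : AlgebraicIndependent BB cv := by
  classical
  rw [algebraicIndependent_iff]
  intro P hP
  rw [MvPolynomial.aeval_def, MvPolynomial.eval₂_eq] at hP
  have hb : ∀ a : (ℕ × QAˣ) →₀ ℕ, ∃ b : QA →₀ QA, (b.sum fun z x => x • Complex.exp (z : ℂ)) = ((P.coeff a : BB) : ℂ) := by
    intro a
    refine Finsupp.mem_span_range_iff_exists_finsupp.1 ?_
    rw [← BB_span]
    exact (P.coeff a).2
  choose b hb using hb
  obtain ⟨c, hc⟩ : ∃ c : (QA × ((ℕ × QAˣ) →₀ ℕ)) →₀ QA, c = ∑ a ∈ P.support, (b a).mapDomain (fun z => (z, a)) := ⟨_, rfl⟩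
  have h0 : Finsupp.linearCombination QA cmm c = 0 := by
    rw [hc, map_sum, ← hP]
    refine Finset.sum_congr rfl fun a _ => ?_
    rw [Finsupp.linearCombination_mapDomain, Finsupp.linearCombination_apply]
    have h1 : algebraMap BB ℂ (P.coeff a) = ((P.coeff a : BB) : ℂ) := rfl
    rw [h1, ← hb a, Finsupp.sum, Finsupp.sum, Finset.sum_mul]
    refine Finset.sum_congr rfl fun z _ => ?_
    rw [Function.comp_apply, cmm, smul_mul_assoc]
    rfl
  have h1 := linearIndependent_iff.1 cmm_LI c h0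
  refine MvPolynomial.ext _ _ fun a => ?_
  rw [MvPolynomial.coeff_zero]
  by_cases ha : a ∈ P.support
  · have hba : b a = 0 := by
      ext z
      have h2 := DFunLike.congr_fun h1 (z, a)
      rw [hc, Finsupp.finsetSum_apply, Finset.sum_eq_single a] at h2
      · rw [Finsupp.mapDomain_apply (fun x y h => (Prod.mk.inj h).1)] at h2
        rw [h2]
        rfl
      · intro a' _ haa
        refine Finsupp.mapDomain_of_notMem_range _ _ ?_
        rintro ⟨z', hz'⟩
        exact haa (Prod.mk.inj hz').2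
      · intro h
        exact absurd ha h
    have h3 := hb a
    rw [hba, Finsupp.sum_zero_index] at h3
    exact (ZeroMemClass.coe_eq_zero.1 h3.symm)
  · exact MvPolynomial.notMem_support_iff.1 ha

/-- the field generated by the exponentials over the algebraic numbers -/
noncomputable abbrev EX : IntermediateField QA ℂ := IntermediateField.adjoin QA (Set.range fun z : QA => Complex.exp (z : ℂ))

open scoped IntermediateField.algebraAdjoinAdjoin in
theorem AI_EX : AlgebraicIndependent EX cv := by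
  have h1 : Algebra.IsAlgebraic BB EX := by
    exact IsLocalization.isAlgebraic _ (nonZeroDivisors BB)
  exact AI_BB.extendScalars EX

end Pool.Agent.V7H81.LW
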