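import Pool.Agent.V7H81.LW.EL

/-!
# Spaces of E-functions which are closed under derivation
-/

set_option autoImplicit false
set_option linter.unusedSectionVars false

open PowerSeries

namespace Pool.Agent.V7H81.LW

section general

variable {K : Type} [Field K] [CharZero K]

lemma mo_add (a b : (ℕ × Kˣ) →₀ ℕ) : mo (a + b) = mo a * mo b := by
  classical
  exact Finsupp.prod_add_index' (fun _ => pow_zero _) (fun _ _ _ => pow_add _ _ _)

lemma mo_zero : mo (0 : (ℕ × Kˣ) →₀ ℕ) = 1 := Finsupp.prod_zero_index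

lemma mm_add (p q : K × ((ℕ × Kˣ) →₀ ℕ)) : mm (p + q) = mm p * mm q := by
  rw [mm, mm, mm, Prod.fst_add, Prod.snd_add, ex_add, mo_add]
  ring

lemma mm_zero : mm (0 : K × ((ℕ × Kˣ) →₀ ℕ)) = 1 := by
  rw [mm, Prod.fst_zero, Prod.snd_zero, ex_zero, mo_zero, mul_one]

/-- the space of all linear combinations of the monomials -/
noncomputable def MM (K : Type) [Field K] [CharZero K] : Submodule K K⟦X⟧ := Submodule.span K (Set.range (mm (K := K)))

lemma MM_mul {f g : K⟦X⟧} (hf : f ∈ MM K) (hg : g ∈ MM K) : f * g ∈ MM K := by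
  have h1 : MM K * MM K ≤ MM K := by
    rw [MM, Submodule.span_mul_span]
    refine Submodule.span_le.2 ?_
    rintro _ ⟨_, ⟨p, rfl⟩, _, ⟨q, rfl⟩, rfl⟩
    exact Submodule.subset_span ⟨p + q, mm_add p q⟩
  exact h1 (Submodule.mul_mem_mul hf hg)

lemma MM_one : (1 : K⟦X⟧) ∈ MM K := Submodule.subset_span ⟨0, mm_zero⟩

lemma MM_ex (a : K) : ex a ∈ MM K :=
  Submodule.subset_span ⟨(a, 0), by rw [mm, mo_zero, mul_one]⟩

lemma MM_vf (i : ℕ × Kˣ) : vf i ∈ MM K := by
  refine Submodule.subset_span ⟨(0, Finsupp.single i 1), ?_⟩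
  have h1 : mo (Finsupp.single i 1) = vf i := by
    have h2 := Finsupp.prod_single_index (a := i) (b := 1) (h := fun (j : ℕ × Kˣ) (n : ℕ) => vf j ^ n) (pow_zero _)
    rw [pow_one] at h2
    exact h2
  show ex 0 * mo (Finsupp.single i 1) = vf i
  rw [ex_zero, one_mul, h1]

end general

variable {L : Type} [Field L] [NumberField L]

/-- a finite dimensional space of E-functions which is closed under derivation, up to a factor `X` -/
structure VS (V : Submodule L L⟦X⟧) : Prop where
  fg : V.FG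
  one : (1 : L⟦X⟧) ∈ V
  der : ∀ v ∈ V, ∃ v0 ∈ V, ∃ v1 ∈ V, th v = v0 + X * v1
  el : ∀ io : L →+* ℂ, ∀ v ∈ V, EL io v
  mm : V ≤ MM L

lemma EL.smul {io : L →+* ℂ} {f : L⟦X⟧} (hf : EL io f) (c : L) : EL io (c • f) := by
  rw [smul_eq]
  exact (EL.C c).mul hf

lemma th_smul' (c : L) (f : L⟦X⟧) : th (c • f) = c • th f := by
  rw [smul_eq, smul_eq, th_mul, th_C]; ring

theorem VS.mul {V W : Submodule L L⟦X⟧} (hV : VS V) (hW : VS W) : VS (V * W) where
  fg := hV.fg.mul hW.fg
  one := by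
    have := Submodule.mul_mem_mul hV.one hW.one
    rwa [one_mul] at this
  der := by
    intro v hv
    induction hv using Submodule.mul_induction_on' with
    | mem_mul_mem m hm n hn =>
      obtain ⟨a, ha, b, hb, h1⟩ := hV.der m hm
      obtain ⟨c, hc, d, hd, h2⟩ := hW.der n hn
      refine ⟨a * n + m * c, Submodule.add_mem _ (Submodule.mul_mem_mul ha hn) (Submodule.mul_mem_mul hm hc),
        b * n + m * d, Submodule.add_mem _ (Submodule.mul_mem_mul hb hn) (Submodule.mul_mem_mul hm hd), ?_⟩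
      rw [th_mul, h1, h2]
      ring
    | add x hx y hy ihx ihy =>
      obtain ⟨a, ha, b, hb, h1⟩ := ihx
      obtain ⟨c, hc, d, hd, h2⟩ := ihy
      refine ⟨a + c, Submodule.add_mem _ ha hc, b + d, Submodule.add_mem _ hb hd, ?_⟩
      rw [map_add, h1, h2]
      ring
  el := by
    intro io v hv
    induction hv using Submodule.mul_induction_on' with
    | mem_mul_mem m hm n hn => exact (hV.el io m hm).mul (hW.el io n hn)
    | add x hx y hy ihx ihy => exact ihx.add ihy
  mm := by
    refine Submodule.mul_le.2 fun f hf g hg => ?_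
    exact MM_mul (hV.mm hf) (hW.mm hg)

theorem VS_span (S : Set L⟦X⟧) (hS : S.Finite) (h1 : (1 : L⟦X⟧) ∈ S)
    (hder : ∀ v ∈ S, ∃ v0 ∈ Submodule.span L S, ∃ v1 ∈ Submodule.span L S, th v = v0 + X * v1)
    (hel : ∀ io : L →+* ℂ, ∀ v ∈ S, EL io v) (hmm : ∀ v ∈ S, v ∈ MM L) : VS (Submodule.span L S) where
  fg := Submodule.fg_span hS
  one := Submodule.subset_span h1
  der := by
    intro v hv
    induction hv using Submodule.span_induction with
    | mem x hx => exact hder x hx
    | zero => exact ⟨0, Submodule.zero_mem _, 0, Submodule.zero_mem _, by simp⟩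
    | add x y hx hy ihx ihy =>
      obtain ⟨a, ha, b, hb, h1⟩ := ihx
      obtain ⟨c, hc, d, hd, h2⟩ := ihy
      refine ⟨a + c, Submodule.add_mem _ ha hc, b + d, Submodule.add_mem _ hb hd, ?_⟩
      rw [map_add, h1, h2]
      ring
    | smul c x hx ihx =>
      obtain ⟨a, ha, b, hb, h1⟩ := ihx
      refine ⟨c • a, Submodule.smul_mem _ _ ha, c • b, Submodule.smul_mem _ _ hb, ?_⟩
      rw [th_smul', h1, smul_add, mul_smul_comm]
  el := by
    intro io v hv
    induction hv using Submodule.span_induction with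
    | mem x hx => exact hel io x hx
    | zero => exact EL.zero
    | add x y hx hy ihx ihy => exact ihx.add ihy
    | smul c x hx ihx => exact ihx.smul c
  mm := Submodule.span_le.2 hmm

/-- elements of such spaces -/
def Good (f : L⟦X⟧) : Prop := ∃ V : Submodule L L⟦X⟧, VS V ∧ f ∈ V

lemma Good.mul {f g : L⟦X⟧} (hf : Good f) (hg : Good g) : Good (f * g) := by
  obtain ⟨V, hV, hfV⟩ := hf
  obtain ⟨W, hW, hgW⟩ := hg
  exact ⟨V * W, hV.mul hW, Submodule.mul_mem_mul hfV hgW⟩

lemma Good.add {f g : L⟦X⟧} (hf : Good f) (hg : Good g) : Good (f + g) := by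
  obtain ⟨V, hV, hfV⟩ := hf
  obtain ⟨W, hW, hgW⟩ := hg
  refine ⟨V * W, hV.mul hW, Submodule.add_mem _ ?_ ?_⟩
  · have := Submodule.mul_mem_mul hfV hW.one
    rwa [mul_one] at this
  · have := Submodule.mul_mem_mul hV.one hgW
    rwa [one_mul] at this

lemma Good.smul {f : L⟦X⟧} (hf : Good f) (c : L) : Good (c • f) := by
  obtain ⟨V, hV, hfV⟩ := hf
  exact ⟨V, hV, Submodule.smul_mem _ _ hfV⟩

lemma Good.ex (a : L) : Good (ex a) := by
  have h1 : (1 : L⟦X⟧) ∈ ({1, LW.ex a} : Set L⟦X⟧) := by simp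
  have h2 : LW.ex a ∈ ({1, LW.ex a} : Set L⟦X⟧) := by simp
  refine ⟨Submodule.span L {1, LW.ex a}, VS_span _ (by simp) h1 ?_ ?_ ?_, Submodule.subset_span h2⟩
  · rintro v (rfl | rfl)
    · refine ⟨0, Submodule.zero_mem _, 0, Submodule.zero_mem _, ?_⟩
      have := th_C (1 : L)
      rw [map_one] at this
      rw [this]; simp
    · refine ⟨0, Submodule.zero_mem _, a • LW.ex a, Submodule.smul_mem _ _ (Submodule.subset_span h2), ?_⟩
      rw [th_ex, smul_eq]; ring
  · rintro io v (rfl | rfl)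
    · exact EL.one
    · exact EL.ex a
  · rintro v (rfl | rfl)
    · exact MM_one
    · exact MM_ex a

lemma Good.one : Good (1 : L⟦X⟧) := by
  have := Good.ex (0 : L)
  rwa [ex_zero] at this

lemma Good.vf (i : ℕ × Lˣ) : Good (vf i) := by
  obtain ⟨l, a⟩ := i
  obtain ⟨S, hS⟩ : ∃ S : Set L⟦X⟧, S = {1, LW.ex (-(a : L))} ∪ (fun j => LW.vf (j, a)) '' (Finset.range (l + 1) : Set ℕ) :=
    ⟨_, rfl⟩
  have h1 : (1 : L⟦X⟧) ∈ S := by rw [hS]; simp
  have h2 : LW.ex (-(a : L)) ∈ S := by rw [hS]; simp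
  have h3 : ∀ j, j ≤ l → LW.vf (j, a) ∈ S := by
    intro j hj
    rw [hS]
    refine Or.inr ⟨j, ?_, rfl⟩
    rw [Finset.mem_coe, Finset.mem_range]
    omega
  refine ⟨Submodule.span L S, VS_span S ?_ h1 ?_ ?_ ?_, Submodule.subset_span (h3 l le_rfl)⟩
  · rw [hS]
    exact (by simp : ({1, LW.ex (-(a : L))} : Set L⟦X⟧).Finite).union ((Finset.finite_toSet _).image _)
  · intro v hv
    rw [hS] at hv
    rcases hv with (rfl | rfl) | ⟨j, hj, rfl⟩
    · refine ⟨0, Submodule.zero_mem _, 0, Submodule.zero_mem _, ?_⟩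
      have := th_C (1 : L)
      rw [map_one] at this
      rw [this]; simp
    · refine ⟨0, Submodule.zero_mem _, (-(a : L)) • LW.ex (-(a : L)),
        Submodule.smul_mem _ _ (Submodule.subset_span h2), ?_⟩
      rw [th_ex, smul_eq]; ring
    · rw [Finset.mem_coe, Finset.mem_range] at hj
      cases j with
      | zero =>
        refine ⟨1 - LW.ex (-(a : L)), Submodule.sub_mem _ (Submodule.subset_span h1) (Submodule.subset_span h2),
          0, Submodule.zero_mem _, ?_⟩
        show th (LW.vf (0, a)) = _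
        rw [LW.vf, th_uf, uf_zero]; ring
      | succ j =>
        refine ⟨LW.vf (j, a), Submodule.subset_span (h3 j (by omega)), 0, Submodule.zero_mem _, ?_⟩
        show th (LW.vf (j + 1, a)) = _
        rw [th_vf_succ]; ring
  · intro io v hv
    rw [hS] at hv
    rcases hv with (rfl | rfl) | ⟨j, hj, rfl⟩
    · exact EL.one
    · exact EL.ex _
    · exact EL.uf _ _
  · intro v hv
    rw [hS] at hv
    rcases hv with (rfl | rfl) | ⟨j, hj, rfl⟩
    · exact MM_one
    · exact MM_ex _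
    · exact MM_vf _

lemma Good.pow {f : L⟦X⟧} (hf : Good f) (n : ℕ) : Good (f ^ n) := by
  induction n with
  | zero => rw [pow_zero]; exact Good.one
  | succ n ih => rw [pow_succ]; exact ih.mul hf

lemma Good.prod {ι : Type*} (s : Finset ι) (f : ι → L⟦X⟧) (hf : ∀ i ∈ s, Good (f i)) : Good (∏ i ∈ s, f i) := by
  classical
  induction s using Finset.induction_on with
  | empty => rw [Finset.prod_empty]; exact Good.one
  | insert a s ha ih =>
    rw [Finset.prod_insert ha]
    exact (hf a (Finset.mem_insert_self _ _)).mul (ih fun i hi => hf i (Finset.mem_insert_of_mem hi))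

theorem good_of_MM {f : L⟦X⟧} (hf : f ∈ MM L) : Good f := by
  induction hf using Submodule.span_induction with
  | mem x hx =>
    obtain ⟨p, rfl⟩ := hx
    exact (Good.ex _).mul (Good.prod _ _ fun i _ => (Good.vf i).pow _)
  | zero =>
    have := (Good.one (L := L)).smul 0
    rwa [zero_smul] at this
  | add x y hx hy ihx ihy => exact ihx.add ihy
  | smul c x hx ihx => exact ihx.smul c

/-! ### the trace -/

/-- the trace, coefficientwise -/
noncomputable def trc : L⟦X⟧ →ₗ[ℚ] ℚ⟦X⟧ where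
  toFun f := PowerSeries.mk fun n => Algebra.trace ℚ L (coeff n f)
  map_add' f g := by
    ext n
    rw [coeff_mk, map_add, map_add, map_add, coeff_mk, coeff_mk]
  map_smul' c f := by
    ext n
    rw [coeff_mk, RingHom.id_apply]
    have h1 : coeff n (c • f) = c • coeff n f := rfl
    have h2 : ∀ g : ℚ⟦X⟧, coeff n (c • g) = c • coeff n g := fun g => rfl
    rw [h1, map_smul, h2, coeff_mk]

lemma coeff_trc (n : ℕ) (f : L⟦X⟧) : coeff n (trc f) = Algebra.trace ℚ L (coeff n f) := by
  exact coeff_mk n (fun n => Algebra.trace ℚ L (coeff n f))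

lemma trc_X (f : L⟦X⟧) : trc (X * f) = X * trc f := by
  ext n
  rw [coeff_trc]
  cases n with
  | zero => simp
  | succ n => rw [coeff_succ_X_mul, coeff_succ_X_mul, coeff_trc]

lemma trc_th (f : L⟦X⟧) : th (trc f) = trc (th f) := by
  ext n
  rw [coeff_th, coeff_trc, coeff_trc, coeff_th]
  have : (n : L) * coeff n f = (n : ℚ) • coeff n f := by
    rw [Algebra.smul_def]; simp
  rw [this, map_smul, smul_eq_mul]

lemma map_trc [IsGalois ℚ L] (f : L⟦X⟧) :
    PowerSeries.map (algebraMap ℚ L) (trc f) = ∑ σ : Gal(L/ℚ), PowerSeries.map (σ : L →+* L) f := by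
  ext n
  rw [coeff_map, coeff_trc, trace_eq_sum_automorphisms, map_sum]
  rfl

/-- conjugation of the indices -/
noncomputable def cj (σ : L →+* L) (p : L × ((ℕ × Lˣ) →₀ ℕ)) : L × ((ℕ × Lˣ) →₀ ℕ) :=
  (σ p.1, p.2.mapDomain (Prod.map id (Units.map (σ : L →* L))))

lemma map_ex (σ : L →+* L) (a : L) : PowerSeries.map σ (ex a) = ex (σ a) := by
  ext n
  rw [coeff_map, coeff_ex, coeff_ex, map_div₀, map_pow, map_natCast]

lemma map_vf (σ : L →+* L) (i : ℕ × Lˣ) :
    PowerSeries.map σ (vf i) = vf (Prod.map id (Units.map (σ : L →* L)) i) := by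
  ext n
  rw [coeff_map, vf, vf, coeff_uf, coeff_uf]
  split_ifs
  · rw [map_zero]
  · rw [map_div₀, map_neg, map_pow, map_neg, map_mul, map_pow, map_natCast, map_natCast]
    rfl

lemma map_mm (σ : L →+* L) (p : L × ((ℕ × Lˣ) →₀ ℕ)) : PowerSeries.map σ (mm p) = mm (cj σ p) := by
  rw [mm, mm, map_mul, map_ex, cj]
  congr 1
  rw [mo, mo, Finsupp.prod_mapDomain_index (fun _ => pow_zero _) (fun _ _ _ => pow_add _ _ _), Finsupp.prod, Finsupp.prod,
    map_prod]
  refine Finset.prod_congr rfl fun i _ => ?_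
  rw [map_pow, map_vf]

lemma MM_map (σ : L →+* L) {f : L⟦X⟧} (hf : f ∈ MM L) : PowerSeries.map σ f ∈ MM L := by
  induction hf using Submodule.span_induction with
  | mem x hx =>
    obtain ⟨p, rfl⟩ := hx
    rw [map_mm]
    exact Submodule.subset_span ⟨_, rfl⟩
  | zero => rw [map_zero]; exact Submodule.zero_mem _
  | add x y hx hy ihx ihy => rw [map_add]; exact Submodule.add_mem _ ihx ihy
  | smul c x hx ihx =>
    rw [smul_eq, map_mul, PowerSeries.map_C, ← smul_eq]
    exact Submodule.smul_mem _ _ ihx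

end Pool.Agent.V7H81.LW
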